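import Mathlib

set_option autoImplicit false

namespace Pool.Agent.Results.MP_0f984e_lc.MonotoneCircuits

/-! ### Orthogonal Vectors -/

/-- Positions of the `2n` input vectors: `(false, i)` is the `i`-th vector of `A`, and
`(true, j)` is the `j`-th vector of `B`. -/
abbrev Pos (n : ℕ) : Type := Bool × Fin n

/-- Vectors in `{0,1}^d`. -/
abbrev Vec (d : ℕ) : Type := Fin d → Bool

/-- An input: `n` vectors of `A` and `n` vectors of `B`, all in `{0,1}^d`. -/
abbrev Input (n d : ℕ) : Type := Pos n → Vec d

/-- Valid inputs: each of the two sets is listed in strictly increasing lexicographic order (so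
each consists of exactly `n` distinct vectors, written in the canonical order). -/
def IsValid {n d : ℕ} (x : Input n d) : Prop :=
  StrictMono (fun i : Fin n => toLex (x (false, i))) ∧
  StrictMono (fun j : Fin n => toLex (x (true, j)))

/-- The answer to the Orthogonal Vectors question: some vector of `A` and some vector of `B` have
inner product `0` over the integers. -/
def HasOrthogonalPair {n d : ℕ} (x : Input n d) : Prop :=
  ∃ i j : Fin n, ∑ k : Fin d, (x (false, i) k).toNat * (x (true, j) k).toNat = 0

/-! ### Monotone real circuits -/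

/-- A free quantity: an arbitrary real function of the whole list `A`, or of the whole list `B`,
which does not decrease when ones are replaced by zeros. -/
def OneSided {n d : ℕ} (u : Input n d → ℝ) : Prop :=
  (∃ ψ : (Fin n → Vec d) → ℝ, Antitone ψ ∧ ∀ x, u x = ψ (fun i => x (false, i))) ∨
  (∃ ψ : (Fin n → Vec d) → ℝ, Antitone ψ ∧ ∀ x, u x = ψ (fun j => x (true, j)))

/-- A monotone real circuit of fan-in `r` with `size` gates: the value `val t` of gate `t` is an
arbitrary nondecreasing real function of `r` quantities, each of which is one-sided or the value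
of an earlier gate. The circuit accepts when the value of the gate `out` exceeds `threshold`. -/
structure Circuit (n d r : ℕ) where
  /-- number of gates -/
  size : ℕ
  /-- the values computed by the gates -/
  val : Fin size → Input n d → ℝ
  /-- every gate is a nondecreasing function of one-sided quantities and earlier gates -/
  gates : ∀ t : Fin size, ∃ φ : (Fin r → ℝ) → ℝ, Monotone φ ∧ ∃ u : Fin r → Input n d → ℝ,
    (∀ k, OneSided (u k) ∨ ∃ t' < t, u k = val t') ∧ ∀ x, val t x = φ (fun k => u k x)
  /-- the output gate -/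
  out : Fin size
  /-- the acceptance threshold -/
  threshold : ℝ

variable {n d r m L : ℕ}

/-- The circuit accepts the input `x`. -/
def Circuit.Accepts (C : Circuit n d r) (x : Input n d) : Prop :=
  C.threshold < C.val C.out x

/-- The circuit answers the Orthogonal Vectors question correctly on input `x`. -/
def Circuit.CorrectOn (C : Circuit n d r) (x : Input n d) : Prop :=
  C.Accepts x ↔ HasOrthogonalPair x

/-! ### Approximators -/

/-- Test inputs: a set of zero coordinates for every position. -/
abbrev Test (n m : ℕ) : Type := Pos n → Finset (Fin m)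

/-- The approximator `max (c, max_p G_p (z_p))`. -/
structure Apx (n m L : ℕ) where
  c : ℝ
  G : Pos n → Finset (Fin m) → ℝ
  mono : ∀ p, Monotone (G p)
  empty : ∀ p, G p ∅ ≤ c
  small : ∑ p : Pos n, (Finset.univ.filter fun S => c < G p S).card ≤ L * 2 ^ m

/-- The approximator is at most `v` at `z`. -/
def Apx.Lower (Φ : Apx n m L) (z : Test n m) (v : ℝ) : Prop :=
  Φ.c ≤ v ∧ ∀ p, Φ.G p (z p) ≤ v

/-- The approximator is at least `v` at `z`. -/
def Apx.Upper (Φ : Apx n m L) (z : Test n m) (v : ℝ) : Prop :=
  v ≤ Φ.c ∨ ∃ p, v ≤ Φ.G p (z p)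

theorem prod_bound (a : Pos n → ℕ) (ha : ∀ p, a p ≤ 2 ^ m) (hL : L * 2 ^ m ≤ ∑ p, a p) :
    ((∏ p : Pos n, (2 ^ m - a p) : ℕ) : ℝ) ≤ Real.exp (-L) * (2 ^ m) ^ (2 * n) := by
  have h1 : ∀ p : Pos n, ((2 ^ m - a p : ℕ) : ℝ) ≤ Real.exp (-(a p / 2 ^ m)) * 2 ^ m := by
    intro p
    rw [Nat.cast_sub (ha p)]
    push_cast
    have h2 := Real.add_one_le_exp (-((a p : ℝ) / 2 ^ m))
    have h3 : (0 : ℝ) < 2 ^ m := by positivity
    calc (2 : ℝ) ^ m - a p = (-((a p : ℝ) / 2 ^ m) + 1) * 2 ^ m := by field_simp; ring
      _ ≤ Real.exp (-(a p / 2 ^ m)) * 2 ^ m := mul_le_mul_of_nonneg_right h2 h3.le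
  push_cast
  calc (∏ p : Pos n, ((2 ^ m - a p : ℕ) : ℝ))
      ≤ ∏ p : Pos n, (Real.exp (-(a p / 2 ^ m)) * 2 ^ m) :=
        Finset.prod_le_prod (fun p _ => Nat.cast_nonneg _) (fun p _ => h1 p)
    _ = Real.exp (-((∑ p, (a p : ℝ)) / 2 ^ m)) * (2 ^ m) ^ (2 * n) := by
        rw [Finset.prod_mul_distrib, ← Real.exp_sum, Finset.prod_const, Finset.card_univ]
        congr 2
        · rw [Finset.sum_neg_distrib, Finset.sum_div]
        · simp
    _ ≤ Real.exp (-L) * (2 ^ m) ^ (2 * n) := by
        apply mul_le_mul_of_nonneg_right _ (by positivity)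
        apply Real.exp_le_exp.2
        have h2 : (L : ℝ) * 2 ^ m ≤ ∑ p, (a p : ℝ) := by exact_mod_cast hL
        have h3 : (L : ℝ) ≤ (∑ p, (a p : ℝ)) / 2 ^ m := by
          rw [le_div_iff₀ (by positivity)]
          exact h2
        linarith

open Classical in
/-- Raising the constant of an approximator until it becomes small. -/
theorem exists_raise (c0 : ℝ) (G : Pos n → Finset (Fin m) → ℝ) (mono : ∀ p, Monotone (G p))
    (empty : ∀ p, G p ∅ ≤ c0) :
    ∃ (Φ : Apx n m L) (N : Finset (Test n m)),
      (N.card : ℝ) ≤ Real.exp (-L) * (2 ^ m) ^ (2 * n) ∧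
      (∀ z v, (v ≤ c0 ∨ ∃ p, v ≤ G p (z p)) → Φ.Upper z v) ∧
      (∀ z ∉ N, ∀ v, c0 ≤ v → (∀ p, G p (z p) ≤ v) → Φ.Lower z v) := by
  let Vals : Finset ℝ := insert c0
    (Finset.univ.image fun q : Pos n × Finset (Fin m) => G q.1 q.2)
  have hG : ∀ p S, G p S ∈ Vals := fun p S =>
    Finset.mem_insert_of_mem (Finset.mem_image.2 ⟨(p, S), Finset.mem_univ _, rfl⟩)
  have hc0 : c0 ∈ Vals := Finset.mem_insert_self _ _
  let cand : Finset ℝ := Vals.filter fun v => c0 ≤ v ∧
    ∑ p : Pos n, (Finset.univ.filter fun S => v < G p S).card ≤ L * 2 ^ m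
  have hne : cand.Nonempty := by
    refine ⟨Vals.max' ⟨c0, hc0⟩, Finset.mem_filter.2 ⟨Finset.max'_mem _ _, Finset.le_max' _ _ hc0, ?_⟩⟩
    rw [Finset.sum_eq_zero]
    · exact Nat.zero_le _
    · intro p _
      rw [Finset.card_eq_zero, Finset.filter_eq_empty_iff]
      intro S _
      exact not_lt.2 (Finset.le_max' _ _ (hG p S))
  have hmem := Finset.min'_mem cand hne
  have hmin : ∀ v ∈ cand, cand.min' hne ≤ v := fun v hv => Finset.min'_le _ _ hv
  generalize cand.min' hne = c1 at hmem hmin
  obtain ⟨hc1V, hc01, hc1s⟩ := Finset.mem_filter.1 hmem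
  refine ⟨⟨c1, G, mono, fun p => (empty p).trans hc01, hc1s⟩, ?_⟩
  rcases eq_or_lt_of_le hc01 with heq | hlt
  · refine ⟨∅, by simpa using by positivity, ?_, ?_⟩
    · intro z v hv
      rcases hv with hv | hv
      · exact Or.inl (hv.trans hc01)
      · exact Or.inr hv
    · intro z _ v hv1 hv2
      exact ⟨heq.symm.le.trans hv1, hv2⟩
  · refine ⟨Fintype.piFinset fun p => Finset.univ.filter fun S => G p S < c1, ?_, ?_, ?_⟩
    · -- the size
      let a : Pos n → ℕ := fun p => (Finset.univ.filter fun S => c1 ≤ G p S).card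
      have ha : ∀ p, a p ≤ 2 ^ m := fun p => by
        have := Finset.card_le_univ (Finset.univ.filter fun S => c1 ≤ G p S)
        simpa using this
      have hcard : (Fintype.piFinset fun p => Finset.univ.filter fun S => G p S < c1).card =
          ∏ p : Pos n, (2 ^ m - a p) := by
        rw [Fintype.card_piFinset]
        apply Finset.prod_congr rfl
        intro p _
        have h1 : (Finset.univ.filter fun S => G p S < c1) =
            (Finset.univ.filter fun S => c1 ≤ G p S)ᶜ := by
          ext S
          simp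
        rw [h1, Finset.card_compl]
        simp [a]
      rw [hcard]
      apply prod_bound a ha
      let low : Finset ℝ := Vals.filter fun v => v < c1
      have hlow : c0 ∈ low := Finset.mem_filter.2 ⟨hc0, hlt⟩
      obtain ⟨h0m, h0lt⟩ := Finset.mem_filter.1 (Finset.max'_mem low ⟨c0, hlow⟩)
      have h0le : c0 ≤ low.max' ⟨c0, hlow⟩ := Finset.le_max' _ _ hlow
      have hmax : ∀ v ∈ low, v ≤ low.max' ⟨c0, hlow⟩ := fun v hv => Finset.le_max' _ _ hv
      generalize low.max' ⟨c0, hlow⟩ = v0 at h0m h0lt h0le hmax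
      have hv0 : ¬ (∑ p : Pos n, (Finset.univ.filter fun S => v0 < G p S).card ≤ L * 2 ^ m) := by
        intro h
        exact absurd (hmin v0 (Finset.mem_filter.2 ⟨h0m, h0le, h⟩)) (not_le.2 h0lt)
      refine (not_le.1 hv0).le.trans (Finset.sum_le_sum fun p _ => Finset.card_le_card ?_)
      intro S hS
      simp only [Finset.mem_filter, Finset.mem_univ, true_and] at hS ⊢
      by_contra hcon
      exact absurd (hmax _ (Finset.mem_filter.2 ⟨hG p S, not_le.1 hcon⟩)) (not_le.2 hS)
    · intro z v hv
      rcases hv with hv | hv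
      · exact Or.inl (hv.trans hc01)
      · exact Or.inr hv
    · intro z hz v _ hv2
      refine ⟨?_, hv2⟩
      rw [Fintype.mem_piFinset] at hz
      push Not at hz
      obtain ⟨p, hp⟩ := hz
      simp only [Finset.mem_filter, Finset.mem_univ, true_and, not_lt] at hp
      exact hp.trans (hv2 p)

/-- The positive tests: a pair of complementary sets at two positions, and empty sets
elsewhere. -/
def posTest (τ : Fin n × Fin n × Finset (Fin m)) : Test n m := fun p =>
  if p = (false, τ.1) then τ.2.2 else if p = (true, τ.2.1) then τ.2.2ᶜ else ∅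

open Classical in
/-- One gate. -/
theorem gate_step (φ : (Fin r → ℝ) → ℝ) (hφ : Monotone φ) (Φ : Fin r → Apx n m L) :
    ∃ (Ψ : Apx n m L) (N : Finset (Test n m)) (M : Finset (Fin n × Fin n × Finset (Fin m))),
      (N.card : ℝ) ≤ Real.exp (-L) * (2 ^ m) ^ (2 * n) ∧
      (M.card : ℝ) ≤ (r * L) ^ 2 * 2 ^ m ∧
      (∀ z ∉ N, ∀ w : Fin r → ℝ, (∀ k, (Φ k).Lower z (w k)) → Ψ.Lower z (φ w)) ∧
      (∀ τ ∉ M, ∀ w : Fin r → ℝ, (∀ k, (Φ k).Upper (posTest τ) (w k)) →
        Ψ.Upper (posTest τ) (φ w)) := by
  let c0 : ℝ := φ fun k => (Φ k).c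
  let G : Pos n → Finset (Fin m) → ℝ := fun p S => φ fun k => max (Φ k).c ((Φ k).G p S)
  have mono : ∀ p, Monotone (G p) := by
    intro p S T hST
    apply hφ
    intro k
    exact max_le_max le_rfl ((Φ k).mono p hST)
  have empty : ∀ p, G p ∅ ≤ c0 := by
    intro p
    apply hφ
    intro k
    exact max_le le_rfl ((Φ k).empty p)
  obtain ⟨Ψ, N, hN, hU, hLo⟩ := exists_raise (L := L) c0 G mono empty
  let A : Fin n → Finset (Finset (Fin m)) := fun i =>
    Finset.univ.filter fun S => ∃ k, (Φ k).c < (Φ k).G (false, i) S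
  let B : Fin n → Finset (Finset (Fin m)) := fun j =>
    Finset.univ.filter fun S => ∃ k, (Φ k).c < (Φ k).G (true, j) Sᶜ
  let B' : Fin n → Finset (Finset (Fin m)) := fun j =>
    Finset.univ.filter fun S => ∃ k, (Φ k).c < (Φ k).G (true, j) S
  let M : Finset (Fin n × Fin n × Finset (Fin m)) := Finset.univ.filter fun τ =>
    τ.2.2 ∈ A τ.1 ∩ B τ.2.1
  have hAup : ∀ i, IsUpperSet (A i : Set (Finset (Fin m))) := by
    intro i S T hST hS
    simp only [A, Finset.coe_filter, Finset.mem_univ, true_and, Set.mem_ofPred_eq] at hS ⊢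
    obtain ⟨k, hk⟩ := hS
    exact ⟨k, hk.trans_le ((Φ k).mono _ hST)⟩
  have hBlow : ∀ j, IsLowerSet (B j : Set (Finset (Fin m))) := by
    intro j S T hTS hS
    simp only [B, Finset.coe_filter, Finset.mem_univ, true_and, Set.mem_ofPred_eq] at hS ⊢
    obtain ⟨k, hk⟩ := hS
    exact ⟨k, hk.trans_le ((Φ k).mono _ (Finset.compl_subset_compl.2 hTS))⟩
  have hBB : ∀ j, (B j).card = (B' j).card := by
    intro j
    apply Finset.card_bij (fun S _ => Sᶜ)
    · intro S hS
      simpa [B, B'] using hS
    · intro S _ T _ h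
      exact compl_injective h
    · intro S hS
      exact ⟨Sᶜ, by simpa [B, B'] using hS, compl_compl S⟩
  have hsumAB : ∑ i, (A i).card + ∑ j, (B' j).card ≤ r * (L * 2 ^ m) := by
    have h1 : ∀ p : Pos n, (Finset.univ.filter fun S => ∃ k, (Φ k).c < (Φ k).G p S).card ≤
        ∑ k, (Finset.univ.filter fun S => (Φ k).c < (Φ k).G p S).card := by
      intro p
      refine le_trans (Finset.card_le_card ?_) Finset.card_biUnion_le
      intro S hS
      simpa using hS
    calc ∑ i, (A i).card + ∑ j, (B' j).card
        = ∑ p : Pos n, (Finset.univ.filter fun S => ∃ k, (Φ k).c < (Φ k).G p S).card := by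
          rw [Fintype.sum_prod_type, Fintype.sum_bool, add_comm]
      _ ≤ ∑ p : Pos n, ∑ k, (Finset.univ.filter fun S => (Φ k).c < (Φ k).G p S).card :=
          Finset.sum_le_sum fun p _ => h1 p
      _ = ∑ k, ∑ p : Pos n, (Finset.univ.filter fun S => (Φ k).c < (Φ k).G p S).card :=
          Finset.sum_comm
      _ ≤ ∑ _k : Fin r, L * 2 ^ m := Finset.sum_le_sum fun k _ => (Φ k).small
      _ = r * (L * 2 ^ m) := by simp
  have hMcard : M.card = ∑ i, ∑ j, (A i ∩ B j).card := by
    rw [Finset.card_filter, Fintype.sum_prod_type]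
    apply Finset.sum_congr rfl
    intro i _
    rw [Fintype.sum_prod_type]
    apply Finset.sum_congr rfl
    intro j _
    rw [← Finset.card_filter]
    congr 1
    ext S
    simp
  have hM : 2 ^ m * M.card ≤ (r * (L * 2 ^ m)) ^ 2 := by
    calc 2 ^ m * M.card = ∑ i, ∑ j, 2 ^ m * (A i ∩ B j).card := by
          rw [hMcard, Finset.mul_sum]
          apply Finset.sum_congr rfl
          intro i _
          rw [Finset.mul_sum]
      _ ≤ ∑ i, ∑ j, (A i).card * (B' j).card := by
          apply Finset.sum_le_sum
          intro i _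
          apply Finset.sum_le_sum
          intro j _
          have h1 := (hAup i).card_inter_le_finset (hBlow j)
          rw [hBB j, Fintype.card_fin] at h1
          exact h1
      _ = (∑ i, (A i).card) * ∑ j, (B' j).card := by
          rw [Finset.sum_mul_sum]
      _ ≤ (r * (L * 2 ^ m)) * (r * (L * 2 ^ m)) := by
          apply Nat.mul_le_mul <;> omega
      _ = (r * (L * 2 ^ m)) ^ 2 := by ring
  refine ⟨Ψ, N, M, hN, ?_, ?_, ?_⟩
  · have h1 : ((2 : ℝ) ^ m) * M.card ≤ (r * (L * 2 ^ m)) ^ 2 := by exact_mod_cast hM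
    have h2 : (0 : ℝ) < 2 ^ m := by positivity
    have h3 : ((2 : ℝ) ^ m) * M.card ≤ 2 ^ m * ((r * L) ^ 2 * 2 ^ m) := by
      calc ((2 : ℝ) ^ m) * M.card ≤ (r * (L * 2 ^ m)) ^ 2 := h1
        _ = 2 ^ m * ((r * L) ^ 2 * 2 ^ m) := by ring
    exact le_of_mul_le_mul_left h3 h2
  · intro z hz w hw
    apply hLo z hz
    · apply hφ
      intro k
      exact (hw k).1
    · intro p
      apply hφ
      intro k
      exact max_le (hw k).1 ((hw k).2 p)
  · rintro ⟨i, j, S⟩ hτ w hw
    apply hU
    simp only [M, Finset.mem_filter, Finset.mem_univ, true_and, Finset.mem_inter, A, B,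
      not_and_or, not_exists, not_lt] at hτ
    right
    rcases hτ with hA | hB
    · refine ⟨(true, j), ?_⟩
      apply hφ
      intro k
      rcases hw k with h1 | ⟨p, h1⟩
      · exact le_max_of_le_left h1
      · by_cases hp1 : p = (false, i)
        · subst hp1
          apply le_max_of_le_left
          refine h1.trans ?_
          simpa [posTest] using hA k
        · by_cases hp2 : p = (true, j)
          · subst hp2
            exact le_max_of_le_right h1
          · apply le_max_of_le_left
            refine h1.trans ?_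
            have h2 : posTest (i, j, S) p = ∅ := by simp [posTest, hp1, hp2]
            rw [h2]
            exact (Φ k).empty p
    · refine ⟨(false, i), ?_⟩
      apply hφ
      intro k
      rcases hw k with h1 | ⟨p, h1⟩
      · exact le_max_of_le_left h1
      · by_cases hp1 : p = (false, i)
        · subst hp1
          exact le_max_of_le_right h1
        · by_cases hp2 : p = (true, j)
          · subst hp2
            apply le_max_of_le_left
            refine h1.trans ?_
            simpa [posTest] using hB k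
          · apply le_max_of_le_left
            refine h1.trans ?_
            have h2 : posTest (i, j, S) p = ∅ := by simp [posTest, hp1, hp2]
            rw [h2]
            exact (Φ k).empty p

/-- One-sided quantities. -/
theorem side_step (f : Test n m → ℝ) (hf : Monotone f) (b : Bool)
    (hb : ∀ z z' : Test n m, (∀ i, z (b, i) = z' (b, i)) → f z = f z') :
    ∃ (Ψ : Apx n m L) (N : Finset (Test n m)),
      (N.card : ℝ) ≤ Real.exp (-L) * (2 ^ m) ^ (2 * n) ∧
      (∀ z ∉ N, Ψ.Lower z (f z)) ∧
      (∀ τ, Ψ.Upper (posTest τ) (f (posTest τ))) := by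
  classical
  obtain ⟨Ψ, N, hN, hU, hLo⟩ := exists_raise (L := L) (f fun _ => ∅)
    (fun p S => f (Function.update (fun _ => ∅) p S))
    (fun p S T hST => by
      apply hf
      intro q
      by_cases hq : q = p
      · subst hq; simpa using hST
      · simp [hq])
    (fun p => by
      apply hf
      intro q
      by_cases hq : q = p
      · subst hq; simp
      · simp [hq])
  refine ⟨Ψ, N, hN, ?_, ?_⟩
  · intro z hz
    apply hLo z hz
    · exact hf fun p => Finset.empty_subset _
    · intro p
      apply hf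
      intro q
      by_cases hq : q = p
      · subst hq; simp
      · simp [hq]
  · rintro ⟨i, j, S⟩
    apply hU
    right
    cases b
    · refine ⟨(false, i), le_of_eq (hb _ _ ?_)⟩
      intro q
      by_cases hq : q = i
      · subst hq; simp
      · simp [posTest, hq]
    · refine ⟨(true, j), le_of_eq (hb _ _ ?_)⟩
      intro q
      by_cases hq : q = j
      · subst hq; simp
      · simp [posTest, hq]

open Classical in
/-- Approximators for all gates of a circuit, after an antitone embedding of the tests. -/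
theorem exists_apx (C : Circuit n d r) (E : Pos n → Finset (Fin m) → Vec d)
    (hE : ∀ p, Antitone (E p)) :
    ∀ k ≤ C.size, ∃ (N : Finset (Test n m)) (M : Finset (Fin n × Fin n × Finset (Fin m))),
      (N.card : ℝ) ≤ k * ((r + 1) * (Real.exp (-L) * (2 ^ m) ^ (2 * n))) ∧
      (M.card : ℝ) ≤ k * ((r * L) ^ 2 * 2 ^ m) ∧
      ∀ t : Fin C.size, t.1 < k → ∃ Φ : Apx n m L,
        (∀ z ∉ N, Φ.Lower z (C.val t fun p => E p (z p))) ∧
        (∀ τ ∉ M, Φ.Upper (posTest τ) (C.val t fun p => E p (posTest τ p))) := by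
  intro k
  induction k with
  | zero =>
    intro _
    exact ⟨∅, ∅, by simp, by simp, fun t ht => absurd ht (Nat.not_lt_zero _)⟩
  | succ k ih =>
    intro hk
    obtain ⟨N, M, hN, hM, hA⟩ := ih (by omega)
    obtain ⟨φ, hφ, u, hu, hval⟩ := C.gates ⟨k, by omega⟩
    -- approximators of the arguments
    have hargs : ∀ l : Fin r, ∃ (Ψ : Apx n m L) (N' : Finset (Test n m)),
        (N'.card : ℝ) ≤ Real.exp (-L) * (2 ^ m) ^ (2 * n) ∧
        (∀ z ∉ N ∪ N', Ψ.Lower z (u l fun p => E p (z p))) ∧
        (∀ τ ∉ M, Ψ.Upper (posTest τ) (u l fun p => E p (posTest τ p))) := by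
      intro l
      rcases hu l with hs | ⟨t, ht, htu⟩
      · have hside : ∃ b : Bool, ∀ z z' : Test n m, (∀ i, z (b, i) = z' (b, i)) →
            (u l fun p => E p (z p)) = u l fun p => E p (z' p) := by
          rcases hs with ⟨ψ, _, h2⟩ | ⟨ψ, _, h2⟩
          · refine ⟨false, fun z z' h => ?_⟩
            rw [h2, h2]
            congr 1
            funext i
            rw [h i]
          · refine ⟨true, fun z z' h => ?_⟩
            rw [h2, h2]
            congr 1
            funext i
            rw [h i]
        have hmono : Monotone fun z : Test n m => u l fun p => E p (z p) := by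
          intro z z' hz
          show (u l fun p => E p (z p)) ≤ u l fun p => E p (z' p)
          rcases hs with ⟨ψ, h1, h2⟩ | ⟨ψ, h1, h2⟩
          · rw [h2, h2]
            exact h1 fun i => hE _ (hz _)
          · rw [h2, h2]
            exact h1 fun i => hE _ (hz _)
        obtain ⟨b, hb⟩ := hside
        obtain ⟨Ψ, N', h1, h2, h3⟩ := side_step (L := L) _ hmono b hb
        exact ⟨Ψ, N', h1, fun z hz => h2 z fun h => hz (Finset.mem_union_right _ h),
          fun τ _ => h3 τ⟩
      · obtain ⟨Φ, h1, h2⟩ := hA t ht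
        refine ⟨Φ, ∅, by simpa using by positivity, ?_, ?_⟩
        · intro z hz
          rw [htu]
          exact h1 z (by simpa using hz)
        · intro τ hτ
          rw [htu]
          exact h2 τ hτ
    choose Ψ N' hN' hLo hUp using hargs
    obtain ⟨Φ, N1, M1, hN1, hM1, hLo1, hUp1⟩ := gate_step φ hφ Ψ
    refine ⟨N ∪ (Finset.univ.biUnion N' ∪ N1), M ∪ M1, ?_, ?_, ?_⟩
    · have h1 : ((Finset.univ.biUnion N').card : ℝ) ≤
          r * (Real.exp (-L) * (2 ^ m) ^ (2 * n)) := by
        calc ((Finset.univ.biUnion N').card : ℝ) ≤ ∑ l, ((N' l).card : ℝ) := by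
              exact_mod_cast Finset.card_biUnion_le
          _ ≤ ∑ _l : Fin r, Real.exp (-L) * (2 ^ m) ^ (2 * n) :=
              Finset.sum_le_sum fun l _ => hN' l
          _ = _ := by simp
      have h2 : ((N ∪ (Finset.univ.biUnion N' ∪ N1)).card : ℝ) ≤
          N.card + ((Finset.univ.biUnion N').card + N1.card) := by
        exact_mod_cast (Finset.card_union_le _ _).trans
          (Nat.add_le_add_left (Finset.card_union_le _ _) _)
      push_cast
      linarith
    · have h2 : ((M ∪ M1).card : ℝ) ≤ M.card + M1.card := by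
        exact_mod_cast Finset.card_union_le _ _
      push_cast
      linarith
    · intro t ht
      rcases Nat.lt_succ_iff_lt_or_eq.1 ht with hlt | heq
      · obtain ⟨Φ', h1, h2⟩ := hA t hlt
        exact ⟨Φ', fun z hz => h1 z fun h => hz (Finset.mem_union_left _ h),
          fun τ hτ => h2 τ fun h => hτ (Finset.mem_union_left _ h)⟩
      · have ht' : t = ⟨k, by omega⟩ := Fin.ext heq
        rw [ht']
        refine ⟨Φ, ?_, ?_⟩
        · intro z hz
          simp only [Finset.mem_union, not_or] at hz
          rw [hval]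
          apply hLo1 z hz.2.2
          intro l
          apply hLo l z
          simp only [Finset.mem_union, not_or]
          refine ⟨hz.1, fun h => hz.2.1 ?_⟩
          exact Finset.mem_biUnion.2 ⟨l, Finset.mem_univ _, h⟩
        · intro τ hτ
          simp only [Finset.mem_union, not_or] at hτ
          rw [hval]
          apply hUp1 τ hτ.2
          intro l
          exact hUp l τ hτ.1

open Classical in
/-- The two cases: a circuit accepts almost all random tests, or rejects almost all positive
tests. -/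
theorem dichotomy (C : Circuit n d r) (E : Pos n → Finset (Fin m) → Vec d)
    (hE : ∀ p, Antitone (E p)) :
    ((Finset.univ.filter fun z : Test n m => ¬ C.Accepts fun p => E p (z p)).card : ℝ) ≤
        C.size * ((r + 1) * (Real.exp (-L) * (2 ^ m) ^ (2 * n))) ∨
    ((Finset.univ.filter fun τ : Fin n × Fin n × Finset (Fin m) =>
        C.Accepts fun p => E p (posTest τ p)).card : ℝ) ≤
        n * (L * 2 ^ m) + C.size * ((r * L) ^ 2 * 2 ^ m) := by
  obtain ⟨N, M, hN, hM, hA⟩ := exists_apx (L := L) C E hE C.size le_rfl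
  obtain ⟨Φ, h1, h2⟩ := hA C.out C.out.2
  rcases lt_or_ge C.threshold Φ.c with hlt | hge
  · left
    refine le_trans ?_ hN
    have h3 : (Finset.univ.filter fun z : Test n m => ¬ C.Accepts fun p => E p (z p)) ⊆ N := by
      intro z hz
      simp only [Finset.mem_filter, Finset.mem_univ, true_and] at hz
      by_contra hcon
      exact hz (hlt.trans_le (h1 z hcon).1)
    exact_mod_cast Finset.card_le_card h3
  · right
    let P : Pos n → Finset (Finset (Fin m)) := fun p =>
      Finset.univ.filter fun S => Φ.c < Φ.G p S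
    let Q1 : Finset (Fin n × Fin n × Finset (Fin m)) := Finset.univ.filter fun τ =>
      τ.2.2 ∈ P (false, τ.1)
    let Q2 : Finset (Fin n × Fin n × Finset (Fin m)) := Finset.univ.filter fun τ =>
      τ.2.2ᶜ ∈ P (true, τ.2.1)
    have h3 : (Finset.univ.filter fun τ : Fin n × Fin n × Finset (Fin m) =>
        C.Accepts fun p => E p (posTest τ p)) ⊆ (Q1 ∪ Q2) ∪ M := by
      rintro ⟨i, j, S⟩ hτ
      simp only [Finset.mem_filter, Finset.mem_univ, true_and] at hτ
      by_cases hM' : (i, j, S) ∈ M
      · exact Finset.mem_union_right _ hM'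
      · apply Finset.mem_union_left
        have h4 : Φ.c < C.val C.out fun p => E p (posTest (i, j, S) p) := hge.trans_lt hτ
        rcases h2 _ hM' with h5 | ⟨p, h5⟩
        · exact absurd h4 (not_lt.2 h5)
        · have h6 := h4.trans_le h5
          by_cases hp1 : p = (false, i)
          · subst hp1
            apply Finset.mem_union_left
            simpa [Q1, P, posTest] using h6
          · by_cases hp2 : p = (true, j)
            · subst hp2
              apply Finset.mem_union_right
              simpa [Q2, P, posTest] using h6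
            · have h7 : posTest (i, j, S) p = ∅ := by simp [posTest, hp1, hp2]
              rw [h7] at h6
              exact absurd h6 (not_lt.2 (Φ.empty p))
    have hQ1 : Q1.card = n * ∑ i, (P (false, i)).card := by
      have h4 : ∀ i : Fin n, ∑ _j : Fin n, (P (false, i)).card = n * (P (false, i)).card := by
        intro i
        simp
      rw [Finset.card_filter, Fintype.sum_prod_type, Finset.mul_sum]
      apply Finset.sum_congr rfl
      intro i _
      rw [Fintype.sum_prod_type, ← h4 i]
      apply Finset.sum_congr rfl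
      intro j _
      rw [← Finset.card_filter]
      congr 1
      ext S
      simp
    have hQ2 : Q2.card = n * ∑ j, (P (true, j)).card := by
      have h5 : ∀ j : Fin n, (Finset.univ.filter fun S : Finset (Fin m) =>
          Sᶜ ∈ P (true, j)).card = (P (true, j)).card := by
        intro j
        apply Finset.card_bij (fun S _ => Sᶜ)
        · intro S hS
          simpa using hS
        · intro S _ T _ h
          exact compl_injective h
        · intro S hS
          exact ⟨Sᶜ, by simpa using hS, compl_compl S⟩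
      have h4 : ∑ _i : Fin n, ∑ j, (P (true, j)).card = n * ∑ j, (P (true, j)).card := by
        simp
      rw [Finset.card_filter, Fintype.sum_prod_type, ← h4]
      apply Finset.sum_congr rfl
      intro i _
      rw [Fintype.sum_prod_type]
      apply Finset.sum_congr rfl
      intro j _
      rw [← Finset.card_filter, ← h5 j]
    have hP : ∑ i, (P (false, i)).card + ∑ j, (P (true, j)).card ≤ L * 2 ^ m := by
      have := Φ.small
      rw [Fintype.sum_prod_type, Fintype.sum_bool, add_comm] at this
      exact this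
    have h8 : (Finset.univ.filter fun τ : Fin n × Fin n × Finset (Fin m) =>
        C.Accepts fun p => E p (posTest τ p)).card ≤ n * (L * 2 ^ m) + M.card := by
      calc _ ≤ ((Q1 ∪ Q2) ∪ M).card := Finset.card_le_card h3
        _ ≤ (Q1.card + Q2.card) + M.card := (Finset.card_union_le _ _).trans
            (Nat.add_le_add_right (Finset.card_union_le _ _) _)
        _ = n * (∑ i, (P (false, i)).card + ∑ j, (P (true, j)).card) + M.card := by
            rw [hQ1, hQ2]; ring
        _ ≤ n * (L * 2 ^ m) + M.card :=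
            Nat.add_le_add_right (Nat.mul_le_mul_left n hP) _
    calc ((Finset.univ.filter fun τ : Fin n × Fin n × Finset (Fin m) =>
        C.Accepts fun p => E p (posTest τ p)).card : ℝ) ≤ n * (L * 2 ^ m) + M.card := by
          exact_mod_cast h8
      _ ≤ _ := by linarith

/-! ### The test inputs -/

/-- A strictly increasing list of `n ≤ 2^m` vectors of length `m`. -/
theorem exists_code {n m : ℕ} (h : n ≤ 2 ^ m) :
    ∃ code : Fin n → Fin m → Bool, ∀ i j, i < j →
      ∃ k : Fin m, (∀ l < k, code i l = code j l) ∧ code i k = false ∧ code j k = true := by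
  classical
  have hcard : Fintype.card (Lex (Fin m → Bool)) = 2 ^ m := by
    rw [Fintype.card_lex, Fintype.card_fun, Fintype.card_bool, Fintype.card_fin]
  let e : Fin (2 ^ m) ≃o Lex (Fin m → Bool) := Fintype.orderIsoFinOfCardEq _ hcard
  refine ⟨fun i => ofLex (e (Fin.castLE h i)), fun i j hij => ?_⟩
  have h1 := e.strictMono (show Fin.castLE h i < Fin.castLE h j from hij)
  obtain ⟨k, hk1, hk2⟩ := h1
  refine ⟨k, hk1, ?_⟩
  have hk3 : (ofLex (e (Fin.castLE h i)) k : Bool) < ofLex (e (Fin.castLE h j)) k := hk2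
  rw [Bool.lt_iff] at hk3
  exact hk3

/-- The vector at position `p` with set `S` of zeros: first two blocks of length `l` with the
name of the position, then the block of length `m`, then zeros. -/
def emb {n l m : ℕ} (d : ℕ) (code : Fin n → Fin l → Bool) (p : Pos n) (S : Finset (Fin m)) :
    Vec d := fun k =>
  if h : k.1 < l then (if p.1 = false then code p.2 ⟨k.1, h⟩ else false)
  else if h : k.1 < 2 * l then (if p.1 = false then false else code p.2 ⟨k.1 - l, by omega⟩)
  else if h : k.1 < 2 * l + m then decide ((⟨k.1 - 2 * l, by omega⟩ : Fin m) ∉ S)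
  else false

theorem emb_antitone {l : ℕ} (code : Fin n → Fin l → Bool) (p : Pos n) :
    Antitone (emb (m := m) d code p) := by
  intro S T hST k
  unfold emb
  split_ifs with h1 h2 h3 h4 h5
  · exact le_rfl
  · exact le_rfl
  · exact le_rfl
  · exact le_rfl
  · by_cases hT : (⟨k.1 - 2 * l, by omega⟩ : Fin m) ∈ T
    · simp [hT]
    · have hS : (⟨k.1 - 2 * l, by omega⟩ : Fin m) ∉ S := fun h => hT (hST h)
      simp [hT, hS]
  · exact le_rfl

theorem emb_valid {l : ℕ} (hd : 2 * l + m ≤ d) (code : Fin n → Fin l → Bool)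
    (hcode : ∀ i j, i < j →
      ∃ k : Fin l, (∀ q < k, code i q = code j q) ∧ code i k = false ∧ code j k = true)
    (z : Test n m) : IsValid (fun p => emb d code p (z p)) := by
  constructor
  · intro p q hpq
    obtain ⟨k, hk1, hk2, hk3⟩ := hcode p q hpq
    refine ⟨⟨k.1, by omega⟩, ?_, ?_⟩
    · intro s hs
      have hs' : s.1 < k.1 := hs
      have h1 : s.1 < l := by omega
      show emb d code (false, p) (z (false, p)) s = emb d code (false, q) (z (false, q)) s
      unfold emb
      rw [dif_pos h1, dif_pos h1]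
      simp only [if_true]
      exact hk1 ⟨s.1, h1⟩ hs'
    · show emb d code (false, p) (z (false, p)) _ < emb d code (false, q) (z (false, q)) _
      unfold emb
      rw [dif_pos (show (⟨k.1, by omega⟩ : Fin d).1 < l from k.2),
        dif_pos (show (⟨k.1, by omega⟩ : Fin d).1 < l from k.2)]
      simp only [if_true]
      rw [hk2, hk3]
      decide
  · intro p q hpq
    obtain ⟨k, hk1, hk2, hk3⟩ := hcode p q hpq
    refine ⟨⟨l + k.1, by omega⟩, ?_, ?_⟩
    · intro s hs
      have hs' : s.1 < l + k.1 := hs
      show emb d code (true, p) (z (true, p)) s = emb d code (true, q) (z (true, q)) s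
      unfold emb
      by_cases h1 : s.1 < l
      · rw [dif_pos h1, dif_pos h1]
        simp
      · have h2 : s.1 < 2 * l := by omega
        rw [dif_neg h1, dif_neg h1, dif_pos h2, dif_pos h2]
        simp only [Bool.true_eq_false, if_false]
        exact hk1 ⟨s.1 - l, by omega⟩ (by rw [Fin.lt_def]; simp only; omega)
    · show emb d code (true, p) (z (true, p)) _ < emb d code (true, q) (z (true, q)) _
      unfold emb
      have h1 : ¬ (l + k.1 < l) := by omega
      have h2 : l + k.1 < 2 * l := by omega
      have h3 : (⟨l + k.1 - l, by omega⟩ : Fin l) = k := by ext; simp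
      simp only [h1, h2, dif_pos, dif_neg, not_false_iff, Bool.true_eq_false, if_false]
      rw [h3, hk2, hk3]
      decide

theorem sum_toNat_eq_zero_iff {d : ℕ} (u v : Vec d) :
    ∑ k : Fin d, (u k).toNat * (v k).toNat = 0 ↔ ∀ k, ¬ (u k = true ∧ v k = true) := by
  rw [Finset.sum_eq_zero_iff]
  constructor
  · intro h k ⟨h1, h2⟩
    have := h k (Finset.mem_univ k)
    simp [h1, h2] at this
  · intro h k _
    have := h k
    cases hu : u k <;> cases hv : v k <;> simp_all

theorem emb_orthogonal {l : ℕ} (hd : 2 * l + m ≤ d) (code : Fin n → Fin l → Bool)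
    (z : Test n m) : HasOrthogonalPair (fun p => emb d code p (z p)) ↔
      ∃ i j : Fin n, z (false, i) ∪ z (true, j) = Finset.univ := by
  unfold HasOrthogonalPair
  simp only [sum_toNat_eq_zero_iff]
  constructor
  · rintro ⟨i, j, h⟩
    refine ⟨i, j, ?_⟩
    ext k
    simp only [Finset.mem_union, Finset.mem_univ, iff_true]
    by_contra hcon
    rw [not_or] at hcon
    apply h ⟨2 * l + k.1, by omega⟩
    have h1 : ¬ (2 * l + k.1 < l) := by omega
    have h2 : ¬ (2 * l + k.1 < 2 * l) := by omega
    have h3 : 2 * l + k.1 < 2 * l + m := by omega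
    have h4 : (⟨2 * l + k.1 - 2 * l, by omega⟩ : Fin m) = k := by ext; simp
    unfold emb
    constructor
    · rw [dif_neg h1, dif_neg h2, dif_pos h3, h4]
      simpa using hcon.1
    · rw [dif_neg h1, dif_neg h2, dif_pos h3, h4]
      simpa using hcon.2
  · rintro ⟨i, j, h⟩
    refine ⟨i, j, ?_⟩
    rintro k ⟨h1, h2⟩
    unfold emb at h1 h2
    by_cases c1 : k.1 < l
    · rw [dif_pos c1] at h2
      simp at h2
    · rw [dif_neg c1] at h1 h2
      by_cases c2 : k.1 < 2 * l
      · rw [dif_pos c2] at h1
        simp at h1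
      · rw [dif_neg c2] at h1 h2
        by_cases c3 : k.1 < 2 * l + m
        · rw [dif_pos c3] at h1 h2
          have h3 : (⟨k.1 - 2 * l, by omega⟩ : Fin m) ∈ z (false, i) ∪ z (true, j) := by
            rw [h]; exact Finset.mem_univ _
          rcases Finset.mem_union.1 h3 with h4 | h4
          · simp [h4] at h1
          · simp [h4] at h2
        · rw [dif_neg c3] at h1
          simp at h1

theorem posTest_orthogonal {l : ℕ} (hd : 2 * l + m ≤ d) (code : Fin n → Fin l → Bool)
    (τ : Fin n × Fin n × Finset (Fin m)) :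
    HasOrthogonalPair (fun p => emb d code p (posTest τ p)) := by
  rw [emb_orthogonal hd]
  refine ⟨τ.1, τ.2.1, ?_⟩
  simp [posTest]

open Classical in
/-- Few random tests have an orthogonal pair. -/
theorem card_orthogonal (hn : 1 ≤ n) :
    (Finset.univ.filter fun z : Test n m =>
      ∃ i j : Fin n, z (false, i) ∪ z (true, j) = Finset.univ).card ≤
      n ^ 2 * (3 ^ m * (2 ^ m) ^ (2 * n - 2)) := by
  have h1 : ∀ i j : Fin n, (Finset.univ.filter fun z : Test n m =>
      z (false, i) ∪ z (true, j) = Finset.univ).card ≤ 3 ^ m * (2 ^ m) ^ (2 * n - 2) := by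
    intro i j
    let t : Finset (Fin m) → Pos n → Finset (Finset (Fin m)) := fun S p =>
      if p = (false, i) then {S} else if p = (true, j) then Finset.univ.filter fun T => Sᶜ ⊆ T
      else Finset.univ
    have h2 : (Finset.univ.filter fun z : Test n m =>
      z (false, i) ∪ z (true, j) = Finset.univ) ⊆
        Finset.univ.biUnion fun S : Finset (Fin m) => Fintype.piFinset (t S) := by
      intro z hz
      simp only [Finset.mem_filter, Finset.mem_univ, true_and] at hz
      refine Finset.mem_biUnion.2 ⟨z (false, i), Finset.mem_univ _, ?_⟩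
      rw [Fintype.mem_piFinset]
      intro p
      by_cases hp1 : p = (false, i)
      · subst hp1
        simp [t]
      · by_cases hp2 : p = (true, j)
        · subst hp2
          simp only [t, hp1, if_false, if_true, Finset.mem_filter, Finset.mem_univ, true_and]
          intro k hk
          have h3 : k ∈ z (false, i) ∪ z (true, j) := by rw [hz]; exact Finset.mem_univ _
          rcases Finset.mem_union.1 h3 with h4 | h4
          · exact absurd h4 (Finset.mem_compl.1 hk)
          · exact h4
        · simp [t, hp1, hp2]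
    have h3 : ∀ S : Finset (Fin m), (Fintype.piFinset (t S)).card =
        2 ^ S.card * (2 ^ m) ^ (2 * n - 2) := by
      intro S
      rw [Fintype.card_piFinset]
      have hne : ((true, j) : Pos n) ∈ Finset.univ.erase (false, i) := by simp
      rw [← Finset.mul_prod_erase _ _ (Finset.mem_univ ((false, i) : Pos n)),
        ← Finset.mul_prod_erase _ _ hne]
      have h4 : (t S (false, i)).card = 1 := by simp [t]
      have h5 : (t S (true, j)).card = 2 ^ S.card := by
        have h6 : t S (true, j) = Finset.Icc Sᶜ Finset.univ := by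
          ext T
          simp [t]
        rw [h6, Finset.card_Icc_finset (Finset.subset_univ _), Finset.card_univ,
          Finset.card_compl, Fintype.card_fin]
        congr 1
        have := Finset.card_le_univ S
        rw [Fintype.card_fin] at this
        omega
      have h7 : ∀ p ∈ (Finset.univ.erase ((false, i) : Pos n)).erase (true, j),
          (t S p).card = 2 ^ m := by
        intro p hp
        rw [Finset.mem_erase, Finset.mem_erase] at hp
        simp [t, hp.1, hp.2.1]
      rw [h4, h5, Finset.prod_congr rfl h7, Finset.prod_const, one_mul,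
        Finset.card_erase_of_mem hne, Finset.card_erase_of_mem (Finset.mem_univ _)]
      congr 2
      simp
      omega
    calc _ ≤ (Finset.univ.biUnion fun S : Finset (Fin m) => Fintype.piFinset (t S)).card :=
          Finset.card_le_card h2
      _ ≤ ∑ S : Finset (Fin m), (Fintype.piFinset (t S)).card := Finset.card_biUnion_le
      _ = ∑ S : Finset (Fin m), 2 ^ S.card * (2 ^ m) ^ (2 * n - 2) :=
          Finset.sum_congr rfl fun S _ => h3 S
      _ = 3 ^ m * (2 ^ m) ^ (2 * n - 2) := by
          rw [← Finset.sum_mul]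
          congr 1
          have := Fintype.sum_pow_mul_eq_add_pow (Fin m) (2 : ℕ) 1
          simpa using this
  calc _ ≤ (Finset.univ.biUnion fun q : Fin n × Fin n => Finset.univ.filter fun z : Test n m =>
      z (false, q.1) ∪ z (true, q.2) = Finset.univ).card := by
        apply Finset.card_le_card
        intro z hz
        simp only [Finset.mem_filter, Finset.mem_univ, true_and] at hz
        obtain ⟨i, j, hij⟩ := hz
        exact Finset.mem_biUnion.2 ⟨(i, j), Finset.mem_univ _, by simpa using hij⟩
    _ ≤ ∑ q : Fin n × Fin n, (Finset.univ.filter fun z : Test n m =>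
      z (false, q.1) ∪ z (true, q.2) = Finset.univ).card := Finset.card_biUnion_le
    _ ≤ ∑ _q : Fin n × Fin n, 3 ^ m * (2 ^ m) ^ (2 * n - 2) :=
        Finset.sum_le_sum fun q _ => h1 q.1 q.2
    _ = _ := by
        rw [Finset.sum_const, Finset.card_univ, Fintype.card_prod, Fintype.card_fin, smul_eq_mul]
        ring

/-! ### Averaging over the random choices -/

open Classical in
theorem exists_good_circuit (μ : PMF (Circuit n d r)) {T : Type} [Fintype T]
    (x : T → Input n d)
    (hx : ∀ τ, (2 / 3 : ENNReal) ≤ μ.toOuterMeasure {P | P.CorrectOn (x τ)}) :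
    ∃ P ∈ μ.support,
      3 * (Finset.univ.filter fun τ => ¬ P.CorrectOn (x τ)).card ≤ Fintype.card T := by
  by_contra hcon
  push Not at hcon
  have herr : ∀ τ, μ.toOuterMeasure {P | ¬ P.CorrectOn (x τ)} ≤ 1 / 3 := by
    intro τ
    have h1 : μ.toOuterMeasure {P | P.CorrectOn (x τ)} +
        μ.toOuterMeasure {P | ¬ P.CorrectOn (x τ)} = 1 := by
      rw [PMF.toOuterMeasure_apply, PMF.toOuterMeasure_apply, ← ENNReal.tsum_add,
        ← PMF.tsum_coe μ]
      congr 1
      funext P
      by_cases h : P.CorrectOn (x τ) <;> simp [Set.indicator, h]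
    have h2 : (2 / 3 : ENNReal) + μ.toOuterMeasure {P | ¬ P.CorrectOn (x τ)} ≤
        2 / 3 + 1 / 3 := by
      calc (2 / 3 : ENNReal) + μ.toOuterMeasure {P | ¬ P.CorrectOn (x τ)}
          ≤ μ.toOuterMeasure {P | P.CorrectOn (x τ)} +
            μ.toOuterMeasure {P | ¬ P.CorrectOn (x τ)} := by gcongr; exact hx τ
        _ = 1 := h1
        _ = 2 / 3 + 1 / 3 := by
            rw [← ENNReal.add_div]
            norm_num
            rw [ENNReal.div_self (by norm_num) (by norm_num)]
    exact (ENNReal.add_le_add_iff_left (ENNReal.div_ne_top (by norm_num) (by norm_num))).1 h2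
  have hlow : ((Fintype.card T : ENNReal) + 1) ≤
      ∑' P, μ P * (3 * ((Finset.univ.filter fun τ => ¬ P.CorrectOn (x τ)).card : ENNReal)) := by
    calc ((Fintype.card T : ENNReal) + 1) = ∑' P, μ P * ((Fintype.card T : ENNReal) + 1) := by
          rw [ENNReal.tsum_mul_right, PMF.tsum_coe, one_mul]
      _ ≤ _ := by
          apply ENNReal.tsum_le_tsum
          intro P
          by_cases hP : μ P = 0
          · simp [hP]
          · have h1 := hcon P ((PMF.mem_support_iff μ P).2 hP)
            gcongr
            exact_mod_cast h1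
  have hup : ∑' P, μ P * (3 * ((Finset.univ.filter fun τ => ¬ P.CorrectOn (x τ)).card : ENNReal))
      ≤ Fintype.card T := by
    have h1 : ∀ P : Circuit n d r,
        μ P * (3 * ((Finset.univ.filter fun τ => ¬ P.CorrectOn (x τ)).card : ENNReal)) =
        3 * ∑ τ : T, {P | ¬ P.CorrectOn (x τ)}.indicator μ P := by
      intro P
      rw [Finset.card_filter]
      push_cast
      rw [← mul_assoc, mul_comm (μ P) 3, mul_assoc, Finset.mul_sum]
      congr 1
      apply Finset.sum_congr rfl
      intro τ _
      by_cases h : P.CorrectOn (x τ) <;> simp [Set.indicator, h]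
    calc ∑' P, μ P * (3 * ((Finset.univ.filter fun τ => ¬ P.CorrectOn (x τ)).card : ENNReal))
        = ∑' P, 3 * ∑ τ : T, {P | ¬ P.CorrectOn (x τ)}.indicator μ P := by
          congr 1
          funext P
          exact h1 P
      _ = 3 * ∑ τ : T, μ.toOuterMeasure {P | ¬ P.CorrectOn (x τ)} := by
          rw [ENNReal.tsum_mul_left, Summable.tsum_finsetSum (fun _ _ => ENNReal.summable)]
          simp only [PMF.toOuterMeasure_apply]
      _ ≤ 3 * ∑ _τ : T, (1 / 3 : ENNReal) := by
          gcongr with τ _
          exact herr τ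
      _ = Fintype.card T := by
          rw [Finset.sum_const, Finset.card_univ, nsmul_eq_mul, mul_comm, mul_assoc]
          rw [ENNReal.div_mul_cancel (by norm_num) (by norm_num), mul_one]
  have h3 := hlow.trans hup
  have h4 : (Fintype.card T + 1 : ℕ) ≤ Fintype.card T := by exact_mod_cast h3
  omega

/-! ### Numerics -/

theorem numeric {n r s L : ℕ} (hn : 300 ≤ n) (hr : 1 ≤ r) (hrn : r + 1 ≤ n)
    (hL : L = ⌈3 * Real.log n⌉₊ + 3)
    (h : Real.exp L / 4 ≤ s * (r + 1) ∨ (n : ℝ) ^ 2 / 3 ≤ n * L + s * (r * L) ^ 2) :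
    (1 / 10 ^ 6 : ℝ) * n ^ 2 / (r * Real.log n) ^ 2 ≤ s := by
  have hn' : (300 : ℝ) ≤ n := by exact_mod_cast hn
  have hn0 : (0 : ℝ) < n := by linarith
  have hr' : (1 : ℝ) ≤ r := by exact_mod_cast hr
  have hrn' : (r : ℝ) + 1 ≤ n := by exact_mod_cast hrn
  have hL1 : (5 : ℝ) ≤ Real.log n := by
    rw [Real.le_log_iff_exp_le hn0]
    have h1 : Real.exp 5 = (Real.exp 1) ^ 5 := by
      rw [← Real.exp_nat_mul]
      norm_num
    rw [h1]
    have h2 := Real.exp_one_lt_d9
    calc Real.exp 1 ^ 5 ≤ (2.7182818286 : ℝ) ^ 5 :=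
          pow_le_pow_left₀ (Real.exp_pos 1).le h2.le 5
      _ ≤ 300 := by norm_num
      _ ≤ n := hn'
  have hlogn : Real.log n ≤ 6 + n / 1000 := by
    have h1 : Real.log n = Real.log (n / 1000) + Real.log 1000 := by
      rw [← Real.log_mul (by positivity) (by norm_num)]
      congr 1
      field_simp
    have h2 : Real.log (n / 1000) ≤ n / 1000 - 1 :=
      Real.log_le_sub_one_of_pos (show (0 : ℝ) < n / 1000 by positivity)
    have h3 : Real.log 1000 ≤ 10 * Real.log 2 := by
      have : Real.log 1000 ≤ Real.log (2 ^ 10) := Real.log_le_log (by norm_num) (by norm_num)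
      rwa [Real.log_pow] at this
    have hlog2 : Real.log 2 < 0.6931471808 := Real.log_two_lt_d9
    rw [h1]
    linarith
  have hLlow : 3 * Real.log n + 3 ≤ L := by
    rw [hL]
    push_cast
    have := Nat.le_ceil (3 * Real.log n)
    linarith
  have hLup : (L : ℝ) ≤ 4 * Real.log n := by
    rw [hL]
    push_cast
    have := Nat.ceil_lt_add_one (show (0 : ℝ) ≤ 3 * Real.log n by linarith)
    linarith
  have hLup' : (12 : ℝ) * L ≤ n := by
    rw [hL]
    push_cast
    have := Nat.ceil_lt_add_one (show (0 : ℝ) ≤ 3 * Real.log n by linarith)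
    linarith
  have hlog0 : (0 : ℝ) < Real.log n := by linarith
  have hden : (0 : ℝ) < (r * Real.log n) ^ 2 := by positivity
  rw [div_le_iff₀ hden]
  rcases h with h | h
  · -- the first case
    have h1 : (n : ℝ) ^ 3 ≤ Real.exp L := by
      have h2 : Real.exp (3 * Real.log n) = (n : ℝ) ^ 3 := by
        rw [show 3 * Real.log n = ((3 : ℕ) : ℝ) * Real.log n by norm_num, Real.exp_nat_mul,
          Real.exp_log hn0]
      rw [← h2]
      exact Real.exp_le_exp.2 (by linarith)
    have h3 : (n : ℝ) ^ 3 / 4 ≤ (s : ℝ) * n := by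
      calc (n : ℝ) ^ 3 / 4 ≤ Real.exp L / 4 := by linarith
        _ ≤ (s : ℝ) * (r + 1) := h
        _ ≤ (s : ℝ) * n := mul_le_mul_of_nonneg_left hrn' (Nat.cast_nonneg s)
    have h4 : (n : ℝ) ^ 2 / 4 ≤ s := by
      have h5 : ((n : ℝ) ^ 2 / 4) * n ≤ (s : ℝ) * n := by
        calc ((n : ℝ) ^ 2 / 4) * n = (n : ℝ) ^ 3 / 4 := by ring
          _ ≤ (s : ℝ) * n := h3
      exact le_of_mul_le_mul_right h5 hn0
    have h6 : (1 : ℝ) ≤ (r * Real.log n) ^ 2 := by
      have : (1 : ℝ) ≤ r * Real.log n := by nlinarith
      nlinarith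
    calc (1 / 10 ^ 6 : ℝ) * n ^ 2 ≤ (n : ℝ) ^ 2 / 4 := by nlinarith [sq_nonneg (n : ℝ)]
      _ ≤ (s : ℝ) := h4
      _ = (s : ℝ) * 1 := (mul_one _).symm
      _ ≤ (s : ℝ) * (r * Real.log n) ^ 2 := mul_le_mul_of_nonneg_left h6 (Nat.cast_nonneg s)
  · -- the second case
    have h1 : (n : ℝ) * L ≤ n ^ 2 / 12 := by nlinarith
    have h2 : (n : ℝ) ^ 2 / 4 ≤ s * (r * L) ^ 2 := by linarith
    have h3 : (r * (L : ℝ)) ^ 2 ≤ 16 * (r * Real.log n) ^ 2 := by
      have h4 : (r : ℝ) * L ≤ 4 * (r * Real.log n) := by nlinarith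
      have h5 : (0 : ℝ) ≤ (r : ℝ) * L := by positivity
      nlinarith
    have h6 : (s : ℝ) * (r * L) ^ 2 ≤ s * (16 * (r * Real.log n) ^ 2) :=
      mul_le_mul_of_nonneg_left h3 (Nat.cast_nonneg s)
    nlinarith [sq_nonneg (n : ℝ)]

/-! ### The result -/

/-- The quadratic lower bound for randomized monotone real circuits solving Orthogonal
Vectors. -/
theorem result : ∃ c : ℝ, 0 < c ∧ ∀ (n d r s : ℕ), 2 ≤ n → 7 * Nat.clog 2 n + 9 ≤ d →
    ∀ μ : PMF (Circuit n d r), (∀ C ∈ μ.support, C.size ≤ s) →
      (∀ x : Input n d, IsValid x →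
        (2 / 3 : ENNReal) ≤ μ.toOuterMeasure {C | C.CorrectOn x}) →
      c * n ^ 2 / (r * Real.log n) ^ 2 ≤ s := by
  classical
  refine ⟨1 / 10 ^ 6, by norm_num, ?_⟩
  intro n d r s hn hd μ hμ hx
  have hn' : (2 : ℝ) ≤ n := by exact_mod_cast hn
  have hlogn : (0.6931471803 : ℝ) < Real.log n :=
    Real.log_two_gt_d9.trans_le (Real.log_le_log (by norm_num) hn')
  -- the size is at least one
  have hs1 : 1 ≤ s := by
    obtain ⟨C, hC⟩ := μ.support_nonempty
    have h1 := C.out.2
    have h2 := hμ C hC
    omega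
  have hs1' : (1 : ℝ) ≤ s := by exact_mod_cast hs1
  rcases Nat.eq_zero_or_pos r with hr | hr
  · subst hr
    simp
  have hr' : (1 : ℝ) ≤ r := by exact_mod_cast hr
  have hrlog : (0 : ℝ) < r * Real.log n := by
    have : (0 : ℝ) < Real.log n := by linarith
    positivity
  rcases Nat.lt_or_ge n 300 with hlt | hge
  · refine le_trans ?_ hs1'
    rw [div_le_one (by positivity)]
    have h1 : (0.69 : ℝ) ≤ r * Real.log n := by nlinarith
    have h2 : (n : ℝ) ≤ 300 := by exact_mod_cast hlt.le
    nlinarith
  rcases Nat.lt_or_ge n (r + 1) with hlt | hrn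
  · refine le_trans ?_ hs1'
    rw [div_le_one (by positivity)]
    have h1 : (n : ℝ) ≤ r := by exact_mod_cast Nat.lt_succ_iff.1 hlt
    have h2 : (0.69 : ℝ) * n ≤ r * Real.log n := by nlinarith
    have h3 : (0.69 * (n : ℝ)) ^ 2 ≤ (r * Real.log n) ^ 2 := by
      apply pow_le_pow_left₀ (by positivity) h2
    nlinarith [sq_nonneg (n : ℝ)]
  -- the test inputs
  obtain ⟨code, hcode⟩ := exists_code (n := n) (m := Nat.clog 2 n)
    (Nat.le_pow_clog (by norm_num) n)
  let l := Nat.clog 2 n
  let m := 5 * l + 9
  have hd' : 2 * l + m ≤ d := by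
    simp only [m, l]
    omega
  let T0 : Type := Test n m
  let T1 : Type := Fin n × Fin n × Finset (Fin m)
  let X : Bool × T0 × T1 → Input n d := fun q =>
    if q.1 = true then fun p => emb d code p (posTest q.2.2 p)
    else fun p => emb d code p (q.2.1 p)
  obtain ⟨C, hC, herr⟩ := exists_good_circuit μ X (by
    intro q
    apply hx
    simp only [X]
    split_ifs
    · exact emb_valid hd' code hcode _
    · exact emb_valid hd' code hcode _)
  let w0 : ℕ := (Finset.univ.filter fun z : T0 =>
    ¬ C.CorrectOn fun p => emb d code p (z p)).card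
  let w1 : ℕ := (Finset.univ.filter fun τ : T1 =>
    ¬ C.CorrectOn fun p => emb d code p (posTest τ p)).card
  have hcT0 : Fintype.card T0 = (2 ^ m) ^ (2 * n) := by
    simp [T0, Test, Fintype.card_prod]
  have hcT1 : Fintype.card T1 = n ^ 2 * 2 ^ m := by
    simp only [T1, Fintype.card_prod, Fintype.card_fin, Fintype.card_finset]
    ring
  have herr2 : 3 * (Fintype.card T0 * w1 + Fintype.card T1 * w0) ≤
      2 * (Fintype.card T0 * Fintype.card T1) := by
    have h1 : (Finset.univ.filter fun q => ¬ C.CorrectOn (X q)).card =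
        Fintype.card T0 * w1 + Fintype.card T1 * w0 := by
      rw [Finset.card_filter, Fintype.sum_prod_type, Fintype.sum_bool]
      congr 1
      · rw [Fintype.sum_prod_type]
        simp only [X, if_true, w1]
        rw [Finset.sum_const, ← Finset.card_filter, Finset.card_univ, smul_eq_mul]
      · rw [Fintype.sum_prod_type, Finset.sum_comm]
        simp only [X, w0, Bool.false_eq_true, if_false]
        rw [Finset.sum_const, ← Finset.card_filter, Finset.card_univ, smul_eq_mul]
    rw [h1] at herr
    have h2 : Fintype.card (Bool × T0 × T1) = 2 * (Fintype.card T0 * Fintype.card T1) := by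
      rw [Fintype.card_prod, Fintype.card_prod, Fintype.card_bool]
    rw [h2] at herr
    exact herr
  have hT0pos : (0 : ℝ) < (2 ^ m) ^ (2 * n) := by positivity
  have hT1pos : (0 : ℝ) < (n : ℝ) ^ 2 * 2 ^ m := by positivity
  have herr3 : (3 : ℝ) * ((2 ^ m) ^ (2 * n) * w1 + (n ^ 2 * 2 ^ m) * w0) ≤
      2 * ((2 ^ m) ^ (2 * n) * (n ^ 2 * 2 ^ m)) := by
    rw [hcT0, hcT1] at herr2
    exact_mod_cast herr2
  have hw0 : (w0 : ℝ) ≤ 2 / 3 * (2 ^ m) ^ (2 * n) := by
    have h1 : (n ^ 2 * 2 ^ m : ℝ) * w0 ≤ (n ^ 2 * 2 ^ m) * (2 / 3 * (2 ^ m) ^ (2 * n)) := by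
      have : (0 : ℝ) ≤ (2 ^ m) ^ (2 * n) * w1 := by positivity
      linarith
    exact le_of_mul_le_mul_left h1 hT1pos
  have hw1 : (w1 : ℝ) ≤ 2 / 3 * (n ^ 2 * 2 ^ m) := by
    have h1 : ((2 : ℝ) ^ m) ^ (2 * n) * w1 ≤ (2 ^ m) ^ (2 * n) * (2 / 3 * (n ^ 2 * 2 ^ m)) := by
      have : (0 : ℝ) ≤ (n ^ 2 * 2 ^ m : ℝ) * w0 := by positivity
      linarith
    exact le_of_mul_le_mul_left h1 hT0pos
  -- few tests with an orthogonal pair
  let O : Finset T0 := Finset.univ.filter fun z : Test n m =>
      ∃ i j : Fin n, z (false, i) ∪ z (true, j) = Finset.univ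
  have hO : (O.card : ℝ) ≤ 1 / 12 * (2 ^ m) ^ (2 * n) := by
    have h1 : (O.card : ℝ) ≤ n ^ 2 * (3 ^ m * (2 ^ m) ^ (2 * n - 2)) := by
      exact_mod_cast card_orthogonal (n := n) (m := m) (by omega)
    have h2 : ((2 : ℝ) ^ m) ^ (2 * n) = 4 ^ m * (2 ^ m) ^ (2 * n - 2) := by
      have h3 : 2 * n = (2 * n - 2) + 2 := by omega
      conv_lhs => rw [h3, pow_add]
      rw [mul_comm]
      congr 1
      rw [← pow_mul, mul_comm, pow_mul]
      norm_num
    have h3 : (n : ℝ) ^ 2 ≤ 4 ^ l := by
      have h4 : (n : ℝ) ≤ 2 ^ l := by exact_mod_cast Nat.le_pow_clog (by norm_num) n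
      calc (n : ℝ) ^ 2 ≤ (2 ^ l) ^ 2 := pow_le_pow_left₀ (by positivity) h4 2
        _ = 4 ^ l := by rw [← pow_mul, mul_comm, pow_mul]; norm_num
    have h4 : (4 : ℝ) ^ l * 3 ^ m ≤ 1 / 12 * 4 ^ m := by
      have e1 : (3 : ℝ) ^ m = 243 ^ l * 19683 := by
        simp only [m]
        rw [pow_add, pow_mul]
        norm_num
      have e2 : (4 : ℝ) ^ m = 1024 ^ l * 262144 := by
        simp only [m]
        rw [pow_add, pow_mul]
        norm_num
      rw [e1, e2]
      have e3 : (4 : ℝ) ^ l * 243 ^ l ≤ 1024 ^ l := by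
        rw [← mul_pow]
        apply pow_le_pow_left₀ (by norm_num)
        norm_num
      have e4 : (0 : ℝ) < 1024 ^ l := by positivity
      nlinarith
    rw [h2]
    have h5 : (0 : ℝ) ≤ (2 ^ m) ^ (2 * n - 2) := by positivity
    have h6 : (0 : ℝ) ≤ 3 ^ m := by positivity
    calc (O.card : ℝ) ≤ n ^ 2 * (3 ^ m * (2 ^ m) ^ (2 * n - 2)) := h1
      _ = (n ^ 2 * 3 ^ m) * (2 ^ m) ^ (2 * n - 2) := by ring
      _ ≤ (4 ^ l * 3 ^ m) * (2 ^ m) ^ (2 * n - 2) := by gcongr
      _ ≤ (1 / 12 * 4 ^ m) * (2 ^ m) ^ (2 * n - 2) := by gcongr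
      _ = 1 / 12 * (4 ^ m * (2 ^ m) ^ (2 * n - 2)) := by ring
  -- the dichotomy
  let L : ℕ := ⌈3 * Real.log n⌉₊ + 3
  have hCs : C.size ≤ s := hμ C hC
  have hCs' : (C.size : ℝ) ≤ s := by exact_mod_cast hCs
  apply numeric hge hr hrn (rfl : L = _)
  rcases dichotomy (L := L) C (emb (m := m) d code) (fun p => emb_antitone code p) with h | h
  · left
    have h1 : ((2 : ℝ) ^ m) ^ (2 * n) ≤ (w0 + O.card) +
        ((Finset.univ.filter fun z : T0 => ¬ C.Accepts fun p => emb d code p (z p)).card : ℝ) := by
      have h2 : Fintype.card T0 ≤ (w0 + O.card) +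
          (Finset.univ.filter fun z : T0 => ¬ C.Accepts fun p => emb d code p (z p)).card := by
        rw [← Finset.card_univ]
        refine le_trans (Finset.card_le_card (t := ((Finset.univ.filter fun z : T0 =>
          ¬ C.CorrectOn fun p => emb d code p (z p)) ∪ O) ∪
          (Finset.univ.filter fun z : T0 => ¬ C.Accepts fun p => emb d code p (z p))) ?_) ?_
        · intro z _
          by_cases ha : C.Accepts fun p => emb d code p (z p)
          · apply Finset.mem_union_left
            by_cases ho : z ∈ O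
            · exact Finset.mem_union_right _ ho
            · apply Finset.mem_union_left
              simp only [Finset.mem_filter, Finset.mem_univ, true_and]
              intro hc
              apply ho
              have h3 := hc.1 ha
              rw [emb_orthogonal hd'] at h3
              simpa [O] using h3
          · apply Finset.mem_union_right
            simpa using ha
        · exact (Finset.card_union_le _ _).trans
            (Nat.add_le_add_right (Finset.card_union_le _ _) _)
      rw [hcT0] at h2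
      exact_mod_cast h2
    have h2 : 1 / 4 * ((2 : ℝ) ^ m) ^ (2 * n) ≤
        (s * (r + 1) * Real.exp (-L)) * (2 ^ m) ^ (2 * n) := by
      have h3 : C.size * ((r + 1) * (Real.exp (-L) * (2 ^ m) ^ (2 * n))) ≤
          (s * (r + 1) * Real.exp (-L)) * (2 ^ m) ^ (2 * n) := by
        calc C.size * ((r + 1) * (Real.exp (-L) * (2 ^ m) ^ (2 * n)))
            ≤ s * ((r + 1) * (Real.exp (-L) * (2 ^ m) ^ (2 * n))) := by gcongr
          _ = _ := by ring
      linarith
    have h3 : 1 / 4 ≤ s * (r + 1) * Real.exp (-L) := le_of_mul_le_mul_right h2 hT0pos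
    rw [Real.exp_neg, ← div_eq_mul_inv, le_div_iff₀ (Real.exp_pos _)] at h3
    linarith
  · right
    have h1 : ((n : ℝ) ^ 2 * 2 ^ m) ≤ w1 +
        ((Finset.univ.filter fun τ : T1 => C.Accepts fun p => emb d code p (posTest τ p)).card : ℝ) := by
      have h2 : Fintype.card T1 ≤ w1 +
          (Finset.univ.filter fun τ : T1 =>
            C.Accepts fun p => emb d code p (posTest τ p)).card := by
        rw [← Finset.card_univ]
        refine le_trans (Finset.card_le_card (t := (Finset.univ.filter fun τ : T1 =>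
          ¬ C.CorrectOn fun p => emb d code p (posTest τ p)) ∪
          (Finset.univ.filter fun τ : T1 =>
            C.Accepts fun p => emb d code p (posTest τ p))) ?_) (Finset.card_union_le _ _)
        intro τ _
        by_cases ha : C.Accepts fun p => emb d code p (posTest τ p)
        · apply Finset.mem_union_right
          simpa using ha
        · apply Finset.mem_union_left
          simp only [Finset.mem_filter, Finset.mem_univ, true_and]
          intro hc
          exact ha (hc.2 (posTest_orthogonal hd' code τ))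
      rw [hcT1] at h2
      exact_mod_cast h2
    have h2 : ((n : ℝ) ^ 2 / 3) * 2 ^ m ≤ (n * L + s * (r * L) ^ 2) * 2 ^ m := by
      have h3 : (n : ℝ) * (L * 2 ^ m) + C.size * ((r * L) ^ 2 * 2 ^ m) ≤
          (n * L + s * (r * L) ^ 2) * 2 ^ m := by
        calc (n : ℝ) * (L * 2 ^ m) + C.size * ((r * L) ^ 2 * 2 ^ m)
            ≤ (n : ℝ) * (L * 2 ^ m) + s * ((r * L) ^ 2 * 2 ^ m) := by gcongr
          _ = _ := by ring
      linarith
    exact le_of_mul_le_mul_right h2 (by positivity)

end Pool.Agent.Results.MP_0f984e_lc.MonotoneCircuits
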