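import Mathlib

set_option autoImplicit false

namespace Pool.Agent.Results.MP_0f984e_lc.RandomizedFormulas

/-! ### Orthogonal Vectors -/

/-- Positions of the `2n` input vectors: `(false, i)` is the `i`-th vector of `A`, and
`(true, j)` is the `j`-th vector of `B`. -/
abbrev Pos (n : ℕ) : Type := Bool × Fin n

/-- Vectors in `{0,1}^d`. -/
abbrev Vec (d : ℕ) : Type := Fin d → Bool

/-- An input: `n` vectors of `A` and `n` vectors of `B`, all in `{0,1}^d`. -/
abbrev Input (n d : ℕ) : Type := Pos n → Vec d

/-- Valid inputs: each of the two sets is listed in strictly increasing lexicographic order (so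
each consists of exactly `n` distinct vectors, written in the canonical order). -/
def IsValid {n d : ℕ} (x : Input n d) : Prop :=
  StrictMono (fun i : Fin n => toLex (x (false, i))) ∧
  StrictMono (fun j : Fin n => toLex (x (true, j)))

/-- The answer to the Orthogonal Vectors question: some vector of `A` and some vector of `B` have
inner product `0` over the integers. -/
def HasOrthogonalPair {n d : ℕ} (x : Input n d) : Prop :=
  ∃ i j : Fin n, ∑ k : Fin d, (x (false, i) k).toNat * (x (true, j) k).toNat = 0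

/-! ### Formulas -/

/-- Formulas over the full binary basis: a leaf evaluates an arbitrary Boolean function of one
whole input vector (the one at position `pos`), a gate applies an arbitrary binary Boolean
function. -/
inductive Formula (n d : ℕ) : Type
  | leaf (pos : Pos n) (query : Vec d → Bool) : Formula n d
  | gate (op : Bool → Bool → Bool) (left right : Formula n d) : Formula n d

variable {n d : ℕ}

/-- The value of the formula. -/
def Formula.eval : Formula n d → Input n d → Bool
  | Formula.leaf p f, x => f (x p)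
  | Formula.gate g F G, x => g (F.eval x) (G.eval x)

/-- The number of leaves. -/
def Formula.size : Formula n d → ℕ
  | Formula.leaf _ _ => 1
  | Formula.gate _ F G => F.size + G.size

/-- The formula answers the Orthogonal Vectors question correctly on input `x`. -/
def Formula.CorrectOn (F : Formula n d) (x : Input n d) : Prop :=
  F.eval x = true ↔ HasOrthogonalPair x

/-! ### Subfunctions of one vector -/

/-- The number of leaves which look at position `p`. -/
def Formula.cnt (p : Pos n) : Formula n d → ℕ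
  | Formula.leaf q _ => if q = p then 1 else 0
  | Formula.gate _ F G => F.cnt p + G.cnt p

theorem Formula.sum_cnt (F : Formula n d) : ∑ p, F.cnt p = F.size := by
  induction F with
  | leaf q f => simp [Formula.cnt, Formula.size]
  | gate g F G hF hG => simp [Formula.cnt, Formula.size, Finset.sum_add_distrib, hF, hG]

theorem Formula.size_pos (F : Formula n d) : 1 ≤ F.size := by
  induction F with
  | leaf q f => simp [Formula.size]
  | gate g F G hF hG => simp only [Formula.size]; omega

open Classical in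
/-- A small set of functions which contains all subfunctions in the vector at position `p`. -/
noncomputable def Formula.sub (p : Pos n) : Formula n d → Finset (Vec d → Bool)
  | Formula.leaf q f => if q = p then Finset.univ.image fun (u : Bool → Bool) (y : Vec d) => u (f y)
      else Finset.univ.image fun (b : Bool) (_ : Vec d) => b
  | Formula.gate g F G =>
      if F.cnt p = 0 then G.sub p
      else if G.cnt p = 0 then F.sub p
      else (Finset.univ ×ˢ (F.sub p ×ˢ G.sub p)).image
        fun (z : (Bool → Bool) × (Vec d → Bool) × (Vec d → Bool)) (y : Vec d) =>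
          z.1 (g (z.2.1 y) (z.2.2 y))

theorem Formula.card_sub (p : Pos n) (F : Formula n d) :
    (F.cnt p = 0 → (F.sub p).card ≤ 2) ∧ (1 ≤ F.cnt p → 4 * (F.sub p).card ≤ 16 ^ F.cnt p) := by
  classical
  induction F with
  | leaf q f =>
    by_cases hq : q = p
    · simp only [Formula.cnt, Formula.sub, hq, if_true]
      refine ⟨fun h => absurd h one_ne_zero, fun _ => ?_⟩
      have h1 := Finset.card_image_le (s := (Finset.univ : Finset (Bool → Bool)))
        (f := fun (u : Bool → Bool) (y : Vec d) => u (f y))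
      have h2 : (Finset.univ : Finset (Bool → Bool)).card = 4 := by decide
      omega
    · simp only [Formula.cnt, Formula.sub, hq, if_false]
      refine ⟨fun _ => ?_, fun h => by omega⟩
      have h1 := Finset.card_image_le (s := (Finset.univ : Finset Bool))
        (f := fun (b : Bool) (_ : Vec d) => b)
      have h2 : (Finset.univ : Finset Bool).card = 2 := by decide
      omega
  | gate g F G hF hG =>
    by_cases h1 : F.cnt p = 0
    · simp only [Formula.cnt, Formula.sub, h1, if_true, zero_add]
      exact hG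
    · by_cases h2 : G.cnt p = 0
      · simp only [Formula.cnt, Formula.sub, h1, h2, if_true, if_false, add_zero]
        exact ⟨fun h => h.elim, fun _ => hF.2 (by omega)⟩
      · simp only [Formula.cnt, Formula.sub, h1, h2, if_false]
        refine ⟨fun h => by omega, fun _ => ?_⟩
        have hF2 := hF.2 (by omega)
        have hG2 := hG.2 (by omega)
        have h3 := Finset.card_image_le
          (s := ((Finset.univ : Finset (Bool → Bool)) ×ˢ (F.sub p ×ˢ G.sub p)))
          (f := fun (z : (Bool → Bool) × (Vec d → Bool) × (Vec d → Bool)) (y : Vec d) =>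
            z.1 (g (z.2.1 y) (z.2.2 y)))
        have h4 : (Finset.univ : Finset (Bool → Bool)).card = 4 := by decide
        rw [Finset.card_product, Finset.card_product, h4] at h3
        rw [pow_add]
        calc 4 * _ ≤ 4 * (4 * ((F.sub p).card * (G.sub p).card)) := Nat.mul_le_mul_left 4 h3
          _ = (4 * (F.sub p).card) * (4 * (G.sub p).card) := by ring
          _ ≤ 16 ^ F.cnt p * 16 ^ G.cnt p := Nat.mul_le_mul hF2 hG2

theorem Formula.eval_update_of_cnt (p : Pos n) (F : Formula n d) (h : F.cnt p = 0)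
    (x : Input n d) (y : Vec d) : F.eval (Function.update x p y) = F.eval x := by
  induction F with
  | leaf q f =>
    have hq : q ≠ p := by
      intro hq
      simp [Formula.cnt, hq] at h
    simp [Formula.eval, Function.update_of_ne hq]
  | gate g F G hF hG =>
    simp only [Formula.cnt] at h
    simp only [Formula.eval]
    rw [hF (by omega), hG (by omega)]

theorem Formula.mem_sub (p : Pos n) (F : Formula n d) (u : Bool → Bool) (x : Input n d) :
    (fun y => u (F.eval (Function.update x p y))) ∈ F.sub p := by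
  classical
  induction F generalizing u with
  | leaf q f =>
    by_cases hq : q = p
    · subst hq
      simp only [Formula.sub, if_true, Formula.eval, Function.update_self]
      exact Finset.mem_image.2 ⟨u, Finset.mem_univ _, rfl⟩
    · simp only [Formula.sub, hq, if_false, Formula.eval, Function.update_of_ne hq]
      exact Finset.mem_image.2 ⟨u (f (x q)), Finset.mem_univ _, rfl⟩
  | gate g F G hF hG =>
    by_cases h1 : F.cnt p = 0
    · simp only [Formula.sub, h1, if_true, Formula.eval, F.eval_update_of_cnt p h1]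
      exact hG fun b => u (g (F.eval x) b)
    · by_cases h2 : G.cnt p = 0
      · simp only [Formula.sub, h1, h2, if_true, if_false, Formula.eval,
          G.eval_update_of_cnt p h2]
        exact hF fun b => u (g b (G.eval x))
      · simp only [Formula.sub, h1, h2, if_false, Formula.eval]
        exact Finset.mem_image.2 ⟨(u, _, _), Finset.mem_product.2 ⟨Finset.mem_univ _,
          Finset.mem_product.2 ⟨hF fun b => b, hG fun b => b⟩⟩, rfl⟩

/-! ### The hard instances -/

/-- A strictly increasing list of `n ≤ 2^m` vectors of length `m`. -/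
theorem exists_code {n m : ℕ} (h : n ≤ 2 ^ m) :
    ∃ code : Fin n → Fin m → Bool, ∀ i j, i < j →
      ∃ k : Fin m, (∀ l < k, code i l = code j l) ∧ code i k = false ∧ code j k = true := by
  classical
  have hcard : Fintype.card (Lex (Fin m → Bool)) = 2 ^ m := by
    rw [Fintype.card_lex, Fintype.card_fun, Fintype.card_bool, Fintype.card_fin]
  let e : Fin (2 ^ m) ≃o Lex (Fin m → Bool) := Fintype.orderIsoFinOfCardEq _ hcard
  refine ⟨fun i => ofLex (e (Fin.castLE h i)), fun i j hij => ?_⟩
  have h1 := e.strictMono (show Fin.castLE h i < Fin.castLE h j from hij)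
  obtain ⟨k, hk1, hk2⟩ := h1
  refine ⟨k, hk1, ?_⟩
  have hk3 : (ofLex (e (Fin.castLE h i)) k : Bool) < ofLex (e (Fin.castLE h j)) k := hk2
  rw [Bool.lt_iff] at hk3
  exact hk3

/-- The vectors of `A` in the hard instances. -/
def vecA {n m : ℕ} (d : ℕ) (code : Fin n → Fin m → Bool) (b : Fin n → Bool) (j : Fin n) :
    Vec d := fun k =>
  if k.1 = m then true
  else if h : m + 1 ≤ k.1 ∧ k.1 < 2 * m + 1 then code j ⟨k.1 - (m + 1), by omega⟩
  else if h : 2 * m + 1 ≤ k.1 ∧ k.1 < 3 * m + 1 then !(code j ⟨k.1 - (2 * m + 1), by omega⟩)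
  else if k.1 = 3 * m + 1 then !(b j)
  else false

/-- The vectors of `B` which meet all vectors of `A`. -/
def vecB {n m : ℕ} (d : ℕ) (code : Fin n → Fin m → Bool) (q : Fin n) : Vec d := fun k =>
  if h : k.1 < m then code q ⟨k.1, h⟩
  else if k.1 = m then true
  else false

/-- The special vector of `B`. -/
def vecS {n m : ℕ} (d : ℕ) (code : Fin n → Fin m → Bool) (i j : Fin n) : Vec d := fun k =>
  if h : k.1 < m then code i ⟨k.1, h⟩
  else if h : m + 1 ≤ k.1 ∧ k.1 < 2 * m + 1 then !(code j ⟨k.1 - (m + 1), by omega⟩)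
  else if h : 2 * m + 1 ≤ k.1 ∧ k.1 < 3 * m + 1 then code j ⟨k.1 - (2 * m + 1), by omega⟩
  else if k.1 = 3 * m + 1 then true
  else false

/-- The hard instances. -/
def hard {n m : ℕ} (d : ℕ) (code : Fin n → Fin m → Bool) (i : Fin n) (b : Fin n → Bool)
    (j : Fin n) : Input n d := fun q =>
  if q.1 = false then vecA d code b q.2
  else if q.2 = i then vecS d code i j else vecB d code q.2

theorem sum_toNat_eq_zero_iff {d : ℕ} (u v : Vec d) :
    ∑ k : Fin d, (u k).toNat * (v k).toNat = 0 ↔ ∀ k, ¬ (u k = true ∧ v k = true) := by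
  rw [Finset.sum_eq_zero_iff]
  constructor
  · intro h k ⟨h1, h2⟩
    have := h k (Finset.mem_univ k)
    simp [h1, h2] at this
  · intro h k _
    have := h k
    cases hu : u k <;> cases hv : v k <;> simp_all

theorem hard_valid {n m d : ℕ} (hd : 3 * m + 2 ≤ d) (code : Fin n → Fin m → Bool)
    (hcode : ∀ i j, i < j →
      ∃ k : Fin m, (∀ l < k, code i l = code j l) ∧ code i k = false ∧ code j k = true)
    (i : Fin n) (b : Fin n → Bool) (j : Fin n) : IsValid (hard d code i b j) := by
  constructor
  · intro p q hpq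
    obtain ⟨k, hk1, hk2, hk3⟩ := hcode p q hpq
    refine ⟨⟨m + 1 + k.1, by omega⟩, ?_, ?_⟩
    · intro l hl
      have hl' : l.1 < m + 1 + k.1 := hl
      show vecA d code b p l = vecA d code b q l
      unfold vecA
      by_cases h1 : l.1 = m
      · simp [h1]
      · simp only [h1, if_false]
        by_cases h2 : m + 1 ≤ l.1 ∧ l.1 < 2 * m + 1
        · simp only [h2, dif_pos, and_self]
          exact hk1 ⟨l.1 - (m + 1), by omega⟩ (by rw [Fin.lt_def]; simp; omega)
        · have h3 : ¬ (2 * m + 1 ≤ l.1 ∧ l.1 < 3 * m + 1) := by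
            have := k.2
            omega
          have h4 : ¬ (l.1 = 3 * m + 1) := by
            have := k.2
            omega
          rw [dif_neg h2, dif_neg h3, if_neg h4, dif_neg h2, dif_neg h3, if_neg h4]
    · show vecA d code b p _ < vecA d code b q _
      have h1 : ¬ (m + 1 + k.1 = m) := by omega
      have h2 : m + 1 ≤ m + 1 + k.1 ∧ m + 1 + k.1 < 2 * m + 1 := by
        have := k.2
        omega
      unfold vecA
      simp only [h1, if_false, h2, and_self, dif_pos]
      have h3 : (⟨m + 1 + k.1 - (m + 1), by omega⟩ : Fin m) = k := by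
        ext; simp
      rw [h3, hk2, hk3]
      decide
  · intro p q hpq
    obtain ⟨k, hk1, hk2, hk3⟩ := hcode p q hpq
    have hpre : ∀ (r : Fin n) (l : Fin d) (hl : l.1 < m),
        hard d code i b j (true, r) l = code r ⟨l.1, hl⟩ := by
      intro r l hl
      by_cases hr : r = i
      · subst hr
        simp [hard, vecS, hl]
      · simp [hard, hr, vecB, hl]
    refine ⟨⟨k.1, by omega⟩, ?_, ?_⟩
    · intro l hl
      have hl' : l.1 < k.1 := hl
      show hard d code i b j (true, p) l = hard d code i b j (true, q) l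
      rw [hpre p l (by omega), hpre q l (by omega)]
      exact hk1 _ (by rw [Fin.lt_def]; exact hl')
    · show hard d code i b j (true, p) _ < hard d code i b j (true, q) _
      rw [hpre p _ k.2, hpre q _ k.2]
      have h3 : (⟨k.1, k.2⟩ : Fin m) = k := rfl
      rw [h3, hk2, hk3]
      decide

theorem hard_hasOrthogonalPair {n m d : ℕ} (hd : 3 * m + 2 ≤ d) (code : Fin n → Fin m → Bool)
    (hcode : ∀ i j, i < j →
      ∃ k : Fin m, (∀ l < k, code i l = code j l) ∧ code i k = false ∧ code j k = true)
    (i : Fin n) (b : Fin n → Bool) (j : Fin n) :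
    HasOrthogonalPair (hard d code i b j) ↔ b j = true := by
  have hinj : ∀ p q, code p = code q → p = q := by
    intro p q hpq
    rcases lt_trichotomy p q with h | h | h
    · obtain ⟨k, _, h2, h3⟩ := hcode p q h
      rw [hpq, h3] at h2
      simp at h2
    · exact h
    · obtain ⟨k, _, h2, h3⟩ := hcode q p h
      rw [hpq, h2] at h3
      simp at h3
  unfold HasOrthogonalPair
  simp only [sum_toNat_eq_zero_iff]
  constructor
  · rintro ⟨p, q, hpq⟩
    have hq : q = i := by
      by_contra hq
      apply hpq ⟨m, by omega⟩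
      constructor
      · simp [hard, vecA]
      · simp [hard, hq, vecB]
    subst hq
    have hA : ∀ k, hard d code q b j (false, p) k = vecA d code b p k := fun k => by simp [hard]
    have hS : ∀ k, hard d code q b j (true, q) k = vecS d code q j k := fun k => by simp [hard]
    simp only [hA, hS] at hpq
    have hpj : p = j := by
      apply hinj
      funext k
      have hk := k.2
      have h1 := hpq ⟨m + 1 + k.1, by omega⟩
      have h2 := hpq ⟨2 * m + 1 + k.1, by omega⟩
      have e1 : vecA d code b p ⟨m + 1 + k.1, by omega⟩ = code p k := by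
        have c1 : ¬ (m + 1 + k.1 = m) := by omega
        have c2 : m + 1 ≤ m + 1 + k.1 ∧ m + 1 + k.1 < 2 * m + 1 := by omega
        have c3 : (⟨m + 1 + k.1 - (m + 1), by omega⟩ : Fin m) = k := by ext; simp
        unfold vecA
        simp only [c1, if_false, c2, and_self, dif_pos]
        rw [c3]
      have e2 : vecS d code q j ⟨m + 1 + k.1, by omega⟩ = !(code j k) := by
        have c1 : ¬ (m + 1 + k.1 < m) := by omega
        have c2 : m + 1 ≤ m + 1 + k.1 ∧ m + 1 + k.1 < 2 * m + 1 := by omega
        have c3 : (⟨m + 1 + k.1 - (m + 1), by omega⟩ : Fin m) = k := by ext; simp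
        unfold vecS
        simp only [c1, c2, and_self, dif_pos, dif_neg, not_false_iff]
        rw [c3]
      have e3 : vecA d code b p ⟨2 * m + 1 + k.1, by omega⟩ = !(code p k) := by
        have c1 : ¬ (2 * m + 1 + k.1 = m) := by omega
        have c2 : ¬ (m + 1 ≤ 2 * m + 1 + k.1 ∧ 2 * m + 1 + k.1 < 2 * m + 1) := by omega
        have c4 : 2 * m + 1 ≤ 2 * m + 1 + k.1 ∧ 2 * m + 1 + k.1 < 3 * m + 1 := by omega
        have c3 : (⟨2 * m + 1 + k.1 - (2 * m + 1), by omega⟩ : Fin m) = k := by ext; simp
        unfold vecA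
        simp only [c1, if_false, c2, dif_neg, not_false_iff, c4, and_self, dif_pos]
        rw [c3]
      have e4 : vecS d code q j ⟨2 * m + 1 + k.1, by omega⟩ = code j k := by
        have c1 : ¬ (2 * m + 1 + k.1 < m) := by omega
        have c2 : ¬ (m + 1 ≤ 2 * m + 1 + k.1 ∧ 2 * m + 1 + k.1 < 2 * m + 1) := by omega
        have c4 : 2 * m + 1 ≤ 2 * m + 1 + k.1 ∧ 2 * m + 1 + k.1 < 3 * m + 1 := by omega
        have c3 : (⟨2 * m + 1 + k.1 - (2 * m + 1), by omega⟩ : Fin m) = k := by ext; simp
        unfold vecS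
        simp only [c1, c2, dif_neg, not_false_iff, c4, and_self, dif_pos]
        rw [c3]
      rw [e1, e2] at h1
      rw [e3, e4] at h2
      cases hc1 : code p k <;> cases hc2 : code j k <;> simp_all
    subst hpj
    have h1 := hpq ⟨3 * m + 1, by omega⟩
    have e1 : vecA d code b p ⟨3 * m + 1, by omega⟩ = !(b p) := by
      have c1 : ¬ (3 * m + 1 = m) := by omega
      have c2 : ¬ (m + 1 ≤ 3 * m + 1 ∧ 3 * m + 1 < 2 * m + 1) := by omega
      have c4 : ¬ (2 * m + 1 ≤ 3 * m + 1 ∧ 3 * m + 1 < 3 * m + 1) := by omega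
      unfold vecA
      simp only [c1, if_false, c2, dif_neg, not_false_iff, c4, if_true]
    have e2 : vecS d code q p ⟨3 * m + 1, by omega⟩ = true := by
      have c1 : ¬ (3 * m + 1 < m) := by omega
      have c2 : ¬ (m + 1 ≤ 3 * m + 1 ∧ 3 * m + 1 < 2 * m + 1) := by omega
      have c4 : ¬ (2 * m + 1 ≤ 3 * m + 1 ∧ 3 * m + 1 < 3 * m + 1) := by omega
      unfold vecS
      simp only [c1, c2, dif_neg, not_false_iff, c4, if_true]
    rw [e1, e2] at h1
    cases hb : b p
    · simp [hb] at h1
    · rfl
  · intro hb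
    refine ⟨j, i, ?_⟩
    intro k
    have hA : hard d code i b j (false, j) k = vecA d code b j k := by simp [hard]
    have hS : hard d code i b j (true, i) k = vecS d code i j k := by simp [hard]
    rw [hA, hS]
    rintro ⟨h1, h2⟩
    unfold vecA at h1
    unfold vecS at h2
    by_cases c0 : k.1 = m
    · have c1 : ¬ (k.1 < m) := by omega
      have c2 : ¬ (m + 1 ≤ k.1 ∧ k.1 < 2 * m + 1) := by omega
      have c3 : ¬ (2 * m + 1 ≤ k.1 ∧ k.1 < 3 * m + 1) := by omega
      have c4 : ¬ (k.1 = 3 * m + 1) := by omega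
      simp only [c1, c2, c3, c4, dif_neg, not_false_iff, if_false] at h2
      exact absurd h2 (by simp)
    · simp only [c0, if_false] at h1
      by_cases c2 : m + 1 ≤ k.1 ∧ k.1 < 2 * m + 1
      · have c1 : ¬ (k.1 < m) := by omega
        simp only [c1, c2, and_self, dif_pos, dif_neg, not_false_iff] at h1 h2
        rw [h1] at h2
        simp at h2
      · by_cases c3 : 2 * m + 1 ≤ k.1 ∧ k.1 < 3 * m + 1
        · have c1 : ¬ (k.1 < m) := by omega
          simp only [c1, c2, c3, and_self, dif_pos, dif_neg, not_false_iff] at h1 h2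
          rw [h2] at h1
          simp at h1
        · by_cases c4 : k.1 = 3 * m + 1
          · rw [dif_neg c2, dif_neg c3, if_pos c4, hb] at h1
            simp at h1
          · simp only [c2, c3, dif_neg, not_false_iff, c4, if_false] at h1
            exact absurd h1 (by simp)



/-! ### Counting -/

open Classical in
/-- Hamming balls of radius `2n/5` are small. -/
theorem ball_card {n : ℕ} (g : Fin n → Bool) :
    (Finset.univ.filter fun b : Fin n → Bool =>
      5 * (Finset.univ.filter fun j => g j ≠ b j).card ≤ 2 * n).card ^ 5 ≤ 29 ^ n := by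
  set B := Finset.univ.filter fun b : Fin n → Bool =>
      5 * (Finset.univ.filter fun j => g j ≠ b j).card ≤ 2 * n with hB
  have hsum : ∑ b : Fin n → Bool, ∏ j, (if g j ≠ b j then (2 / 3 : ℝ) else 1) = (5 / 3) ^ n := by
    have h1 := Finset.prod_univ_sum (fun _ : Fin n => (Finset.univ : Finset Bool))
      (fun j c => (if g j ≠ c then (2 / 3 : ℝ) else 1))
    rw [Fintype.piFinset_univ] at h1
    rw [← h1]
    have h2 : ∀ j : Fin n, ∑ c : Bool, (if g j ≠ c then (2 / 3 : ℝ) else 1) = 5 / 3 := by
      intro j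
      cases g j <;> simp <;> norm_num
    rw [Finset.prod_congr rfl (fun j _ => h2 j), Finset.prod_const, Finset.card_univ,
      Fintype.card_fin]
  have hprod : ∀ b : Fin n → Bool, ∏ j, (if g j ≠ b j then (2 / 3 : ℝ) else 1)
      = (2 / 3) ^ (Finset.univ.filter fun j => g j ≠ b j).card := by
    intro b
    rw [Finset.prod_ite, Finset.prod_const, Finset.prod_const, one_pow, mul_one]
  let r := 2 * n / 5
  have hle : (B.card : ℝ) * (2 / 3) ^ r ≤ (5 / 3) ^ n := by
    rw [← hsum]
    calc (B.card : ℝ) * (2 / 3) ^ r = ∑ _b ∈ B, (2 / 3 : ℝ) ^ r := by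
            rw [Finset.sum_const, nsmul_eq_mul]
      _ ≤ ∑ b ∈ B, ∏ j, (if g j ≠ b j then (2 / 3 : ℝ) else 1) := by
            apply Finset.sum_le_sum
            intro b hb
            rw [hprod b]
            have hb' : 5 * (Finset.univ.filter fun j => g j ≠ b j).card ≤ 2 * n := by
              simpa [hB] using hb
            apply pow_le_pow_of_le_one (by norm_num) (by norm_num)
            omega
      _ ≤ ∑ b : Fin n → Bool, ∏ j, (if g j ≠ b j then (2 / 3 : ℝ) else 1) := by
            apply Finset.sum_le_sum_of_subset_of_nonneg (Finset.subset_univ _)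
            intro b _ _
            apply Finset.prod_nonneg
            intro j _
            split_ifs <;> norm_num
  have h5 : (B.card : ℝ) ^ 5 * (2 / 3) ^ (2 * n) ≤ (5 / 3) ^ (5 * n) := by
    have h6 : (2 / 3 : ℝ) ^ (2 * n) ≤ ((2 / 3) ^ r) ^ 5 := by
      rw [← pow_mul]
      apply pow_le_pow_of_le_one (by norm_num) (by norm_num)
      omega
    calc (B.card : ℝ) ^ 5 * (2 / 3) ^ (2 * n) ≤ (B.card : ℝ) ^ 5 * ((2 / 3) ^ r) ^ 5 := by
            apply mul_le_mul_of_nonneg_left h6 (by positivity)
      _ = ((B.card : ℝ) * (2 / 3) ^ r) ^ 5 := by rw [mul_pow]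
      _ ≤ ((5 / 3) ^ n) ^ 5 := by
            apply pow_le_pow_left₀ (by positivity) hle
      _ = (5 / 3) ^ (5 * n) := by rw [← pow_mul, mul_comm]
  have h7 : (B.card : ℝ) ^ 5 ≤ 29 ^ n := by
    have h8 : (B.card : ℝ) ^ 5 = ((B.card : ℝ) ^ 5 * (2 / 3) ^ (2 * n)) * (3 / 2) ^ (2 * n) := by
      rw [mul_assoc, ← mul_pow]
      norm_num
    rw [h8]
    calc ((B.card : ℝ) ^ 5 * (2 / 3) ^ (2 * n)) * (3 / 2) ^ (2 * n)
        ≤ (5 / 3) ^ (5 * n) * (3 / 2) ^ (2 * n) := by
            apply mul_le_mul_of_nonneg_right h5 (by positivity)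
      _ = ((5 / 3) ^ 5 * (3 / 2) ^ 2) ^ n := by rw [pow_mul, pow_mul, ← mul_pow]
      _ ≤ 29 ^ n := by
            apply pow_le_pow_left₀ (by norm_num)
            norm_num
  exact_mod_cast h7


open Classical in
theorem fiber_card (F : Formula n d) {m : ℕ} (code : Fin n → Fin m → Bool) (i : Fin n)
    (f : Vec d → Bool)
    (hcorrect : ∀ b j, (HasOrthogonalPair (hard d code i b j) ↔ b j = true)) :
    (Finset.univ.filter fun b : Fin n → Bool =>
      5 * (Finset.univ.filter fun j => ¬ F.CorrectOn (hard d code i b j)).card ≤ 2 * n ∧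
      ∀ j, F.eval (hard d code i b j) = f (vecS d code i j)).card ^ 5 ≤ 29 ^ n := by
  let g : Fin n → Bool := fun j => f (vecS d code i j)
  refine le_trans (Nat.pow_le_pow_left (Finset.card_le_card ?_) 5) (ball_card g)
  intro b hb
  simp only [Finset.mem_filter, Finset.mem_univ, true_and] at hb ⊢
  refine le_trans (Nat.mul_le_mul_left 5 (Finset.card_le_card ?_)) hb.1
  intro j hj
  simp only [Finset.mem_filter, Finset.mem_univ, true_and] at hj ⊢
  intro hc
  apply hj
  unfold Formula.CorrectOn at hc
  rw [hcorrect, hb.2 j] at hc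
  exact Bool.eq_iff_iff.2 hc

theorem hard_eq_update {m : ℕ} (code : Fin n → Fin m → Bool) (i : Fin n) (b : Fin n → Bool)
    (j j' : Fin n) : hard d code i b j =
      Function.update (hard d code i b j') (true, i) (vecS d code i j) := by
  funext q
  rcases q with ⟨c, r⟩
  by_cases hq : (c, r) = ((true, i) : Pos n)
  · rw [hq, Function.update_self]
    simp [hard]
  · rw [Function.update_of_ne hq]
    cases c
    · simp [hard]
    · have hr : r ≠ i := by
        intro h
        apply hq
        rw [h]
      simp [hard, hr]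

open Classical in
/-- The average-case lower bound for deterministic formulas, in combinatorial form. -/
theorem deterministic_bound (F : Formula n d) {m : ℕ} (code : Fin n → Fin m → Bool)
    (hn : 1 ≤ n)
    (hcorrect : ∀ i b j, (HasOrthogonalPair (hard d code i b j) ↔ b j = true))
    (herr : 3 * (Finset.univ.filter fun τ : Fin n × (Fin n → Bool) × Fin n =>
      ¬ F.CorrectOn (hard d code τ.1 τ.2.1 τ.2.2)).card ≤ n * (2 ^ n * n)) :
    ∃ t : ℕ, t * n ≤ 9 * F.size ∧ 32 ^ n ≤ 16 ^ 5 * (2 * 16 ^ t) ^ 5 * 29 ^ n := by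
  let E : Fin n → ℕ := fun i => (Finset.univ.filter fun τ : (Fin n → Bool) × Fin n =>
      ¬ F.CorrectOn (hard d code i τ.1 τ.2)).card
  have hE : (Finset.univ.filter fun τ : Fin n × (Fin n → Bool) × Fin n =>
      ¬ F.CorrectOn (hard d code τ.1 τ.2.1 τ.2.2)).card = ∑ i, E i := by
    simp only [E, Finset.card_filter, Fintype.sum_prod_type]
  rw [hE] at herr
  let G : Finset (Fin n) := Finset.univ.filter fun i => 8 * E i ≤ 3 * (2 ^ n * n)
  have hG : n ≤ 9 * G.card := by
    have h1 : (Gᶜ).card * (3 * (2 ^ n * n)) ≤ 8 * ∑ i, E i := by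
      calc (Gᶜ).card * (3 * (2 ^ n * n)) = ∑ _i ∈ Gᶜ, 3 * (2 ^ n * n) := by
            rw [Finset.sum_const, smul_eq_mul]
        _ ≤ ∑ i ∈ Gᶜ, 8 * E i := by
            apply Finset.sum_le_sum
            intro i hi
            simp only [G, Finset.mem_compl, Finset.mem_filter, Finset.mem_univ, true_and,
              not_le] at hi
            exact hi.le
        _ ≤ ∑ i, 8 * E i := Finset.sum_le_sum_of_subset (Finset.subset_univ _)
        _ = 8 * ∑ i, E i := by rw [Finset.mul_sum]
    have h2 : (Gᶜ).card + G.card = n := by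
      rw [Finset.card_compl_add_card, Fintype.card_fin]
    have h3 : 9 * (Gᶜ).card * (2 ^ n * n) ≤ 8 * n * (2 ^ n * n) := by
      calc 9 * (Gᶜ).card * (2 ^ n * n) = 3 * ((Gᶜ).card * (3 * (2 ^ n * n))) := by ring
        _ ≤ 3 * (8 * ∑ i, E i) := Nat.mul_le_mul_left 3 h1
        _ = 8 * (3 * ∑ i, E i) := by ring
        _ ≤ 8 * (n * (2 ^ n * n)) := Nat.mul_le_mul_left 8 herr
        _ = 8 * n * (2 ^ n * n) := by ring
    have h4 : 9 * (Gᶜ).card ≤ 8 * n := Nat.le_of_mul_le_mul_right h3 (by positivity)
    omega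
  have hsize : ∑ i : Fin n, F.cnt (true, i) ≤ F.size := by
    rw [← F.sum_cnt, Fintype.sum_prod_type, Fintype.sum_bool]
    omega
  obtain ⟨i, hiG, hi⟩ : ∃ i ∈ G, F.cnt (true, i) * n ≤ 9 * F.size := by
    by_contra hcon
    push Not at hcon
    have h1 : G.card * (9 * F.size + 1) ≤ F.size * n := by
      calc G.card * (9 * F.size + 1) = ∑ _i ∈ G, (9 * F.size + 1) := by
            rw [Finset.sum_const, smul_eq_mul]
        _ ≤ ∑ i ∈ G, F.cnt (true, i) * n := Finset.sum_le_sum fun i hi => hcon i hi
        _ ≤ ∑ i, F.cnt (true, i) * n := Finset.sum_le_sum_of_subset (Finset.subset_univ _)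
        _ = (∑ i, F.cnt (true, i)) * n := by rw [Finset.sum_mul]
        _ ≤ F.size * n := Nat.mul_le_mul_right n hsize
    have h2 : n * (9 * F.size + 1) ≤ 9 * (F.size * n) := by
      calc n * (9 * F.size + 1) ≤ 9 * G.card * (9 * F.size + 1) := Nat.mul_le_mul_right _ hG
        _ = 9 * (G.card * (9 * F.size + 1)) := by ring
        _ ≤ 9 * (F.size * n) := Nat.mul_le_mul_left 9 h1
    nlinarith
  refine ⟨F.cnt (true, i), hi, ?_⟩
  -- good strings
  have hEi : 8 * E i ≤ 3 * (2 ^ n * n) := by simpa [G] using hiG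
  let e : (Fin n → Bool) → ℕ := fun b =>
    (Finset.univ.filter fun j => ¬ F.CorrectOn (hard d code i b j)).card
  have he : E i = ∑ b, e b := by
    simp only [E, e, Finset.card_filter, Fintype.sum_prod_type]
  let Gb : Finset (Fin n → Bool) := Finset.univ.filter fun b => 5 * e b ≤ 2 * n
  have hGb : 2 ^ n ≤ 16 * Gb.card := by
    have h1 : (Gbᶜ).card * (2 * n) ≤ 5 * E i := by
      calc (Gbᶜ).card * (2 * n) = ∑ _b ∈ Gbᶜ, 2 * n := by
            rw [Finset.sum_const, smul_eq_mul]
        _ ≤ ∑ b ∈ Gbᶜ, 5 * e b := by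
            apply Finset.sum_le_sum
            intro b hb
            simp only [Gb, Finset.mem_compl, Finset.mem_filter, Finset.mem_univ, true_and,
              not_le] at hb
            exact hb.le
        _ ≤ ∑ b, 5 * e b := Finset.sum_le_sum_of_subset (Finset.subset_univ _)
        _ = 5 * E i := by rw [he, Finset.mul_sum]
    have h2 : (Gbᶜ).card + Gb.card = 2 ^ n := by
      rw [Finset.card_compl_add_card]
      simp
    have h3 : (16 * (Gbᶜ).card) * n ≤ (15 * 2 ^ n) * n := by
      calc (16 * (Gbᶜ).card) * n = 8 * ((Gbᶜ).card * (2 * n)) := by ring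
        _ ≤ 8 * (5 * E i) := Nat.mul_le_mul_left 8 h1
        _ = 5 * (8 * E i) := by ring
        _ ≤ 5 * (3 * (2 ^ n * n)) := Nat.mul_le_mul_left 5 hEi
        _ = (15 * 2 ^ n) * n := by ring
    have h4 : 16 * (Gbᶜ).card ≤ 15 * 2 ^ n := Nat.le_of_mul_le_mul_right h3 (by omega)
    omega
  -- split according to the subfunction
  let fib : (Vec d → Bool) → Finset (Fin n → Bool) := fun f =>
    Finset.univ.filter fun b : Fin n → Bool =>
      5 * (Finset.univ.filter fun j => ¬ F.CorrectOn (hard d code i b j)).card ≤ 2 * n ∧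
      ∀ j, F.eval (hard d code i b j) = f (vecS d code i j)
  have hfib : ∀ f, (fib f).card ^ 5 ≤ 29 ^ n := fun f => fiber_card F code i f (hcorrect i)
  have hcover : Gb ⊆ (F.sub (true, i)).biUnion fib := by
    intro b hb
    have hb' : 5 * e b ≤ 2 * n := by simpa [Gb] using hb
    rw [Finset.mem_biUnion]
    refine ⟨fun y => F.eval (Function.update (hard d code i b ⟨0, by omega⟩) (true, i) y),
      F.mem_sub (true, i) (fun c => c) _, ?_⟩
    simp only [fib, Finset.mem_filter, Finset.mem_univ, true_and]
    refine ⟨hb', fun j => ?_⟩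
    rw [← hard_eq_update code i b j ⟨0, by omega⟩]
  obtain ⟨D, hD1, hD2⟩ : ∃ D : ℕ, D ^ 5 ≤ 29 ^ n ∧ ∀ f, (fib f).card ≤ D := by
    obtain ⟨σ, _, hσ⟩ := Finset.exists_max_image (Finset.univ : Finset (Vec d → Bool))
      (fun σ => (fib σ).card) ⟨fun _ => true, Finset.mem_univ _⟩
    exact ⟨(fib σ).card, hfib σ, fun τ => hσ τ (Finset.mem_univ _)⟩
  have hGb2 : Gb.card ≤ (F.sub (true, i)).card * D := by
    calc Gb.card ≤ ((F.sub (true, i)).biUnion fib).card := Finset.card_le_card hcover
      _ ≤ (F.sub (true, i)).card * D := Finset.card_biUnion_le_card_mul _ _ _ fun σ _ => hD2 σ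
  have hsub : (F.sub (true, i)).card ≤ 2 * 16 ^ F.cnt (true, i) := by
    obtain ⟨h1, h2⟩ := F.card_sub (true, i)
    rcases Nat.eq_zero_or_pos (F.cnt (true, i)) with h | h
    · rw [h]
      simpa using h1 h
    · have := h2 h
      omega
  have h32 : (32 : ℕ) ^ n = (2 ^ n) ^ 5 := by
    rw [← pow_mul, mul_comm, pow_mul]
    norm_num
  calc 32 ^ n = (2 ^ n) ^ 5 := h32
    _ ≤ (16 * ((2 * 16 ^ F.cnt (true, i)) * D)) ^ 5 :=
        Nat.pow_le_pow_left (hGb.trans (Nat.mul_le_mul_left 16
          (hGb2.trans (Nat.mul_le_mul_right D hsub)))) 5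
    _ = 16 ^ 5 * (2 * 16 ^ F.cnt (true, i)) ^ 5 * D ^ 5 := by ring
    _ ≤ 16 ^ 5 * (2 * 16 ^ F.cnt (true, i)) ^ 5 * 29 ^ n := Nat.mul_le_mul_left _ hD1

/-! ### Averaging over the random choices -/

open Classical in
theorem exists_good_formula (μ : PMF (Formula n d)) {T : Type} [Fintype T]
    (x : T → Input n d)
    (hx : ∀ τ, (2 / 3 : ENNReal) ≤ μ.toOuterMeasure {P | P.CorrectOn (x τ)}) :
    ∃ P ∈ μ.support,
      3 * (Finset.univ.filter fun τ => ¬ P.CorrectOn (x τ)).card ≤ Fintype.card T := by
  by_contra hcon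
  push Not at hcon
  have herr : ∀ τ, μ.toOuterMeasure {P | ¬ P.CorrectOn (x τ)} ≤ 1 / 3 := by
    intro τ
    have h1 : μ.toOuterMeasure {P | P.CorrectOn (x τ)} +
        μ.toOuterMeasure {P | ¬ P.CorrectOn (x τ)} = 1 := by
      rw [PMF.toOuterMeasure_apply, PMF.toOuterMeasure_apply, ← ENNReal.tsum_add,
        ← PMF.tsum_coe μ]
      congr 1
      funext P
      by_cases h : P.CorrectOn (x τ) <;> simp [Set.indicator, h]
    have h2 : (2 / 3 : ENNReal) + μ.toOuterMeasure {P | ¬ P.CorrectOn (x τ)} ≤
        2 / 3 + 1 / 3 := by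
      calc (2 / 3 : ENNReal) + μ.toOuterMeasure {P | ¬ P.CorrectOn (x τ)}
          ≤ μ.toOuterMeasure {P | P.CorrectOn (x τ)} +
            μ.toOuterMeasure {P | ¬ P.CorrectOn (x τ)} := by gcongr; exact hx τ
        _ = 1 := h1
        _ = 2 / 3 + 1 / 3 := by
            rw [← ENNReal.add_div]
            norm_num
            rw [ENNReal.div_self (by norm_num) (by norm_num)]
    exact (ENNReal.add_le_add_iff_left (ENNReal.div_ne_top (by norm_num) (by norm_num))).1 h2
  have hlow : ((Fintype.card T : ENNReal) + 1) ≤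
      ∑' P, μ P * (3 * ((Finset.univ.filter fun τ => ¬ P.CorrectOn (x τ)).card : ENNReal)) := by
    calc ((Fintype.card T : ENNReal) + 1) = ∑' P, μ P * ((Fintype.card T : ENNReal) + 1) := by
          rw [ENNReal.tsum_mul_right, PMF.tsum_coe, one_mul]
      _ ≤ _ := by
          apply ENNReal.tsum_le_tsum
          intro P
          by_cases hP : μ P = 0
          · simp [hP]
          · have h1 := hcon P ((PMF.mem_support_iff μ P).2 hP)
            gcongr
            exact_mod_cast h1
  have hup : ∑' P, μ P * (3 * ((Finset.univ.filter fun τ => ¬ P.CorrectOn (x τ)).card : ENNReal))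
      ≤ Fintype.card T := by
    have h1 : ∀ P : Formula n d,
        μ P * (3 * ((Finset.univ.filter fun τ => ¬ P.CorrectOn (x τ)).card : ENNReal)) =
        3 * ∑ τ : T, {P | ¬ P.CorrectOn (x τ)}.indicator μ P := by
      intro P
      rw [Finset.card_filter]
      push_cast
      rw [← mul_assoc, mul_comm (μ P) 3, mul_assoc, Finset.mul_sum]
      congr 1
      apply Finset.sum_congr rfl
      intro τ _
      by_cases h : P.CorrectOn (x τ) <;> simp [Set.indicator, h]
    calc ∑' P, μ P * (3 * ((Finset.univ.filter fun τ => ¬ P.CorrectOn (x τ)).card : ENNReal))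
        = ∑' P, 3 * ∑ τ : T, {P | ¬ P.CorrectOn (x τ)}.indicator μ P := by
          congr 1
          funext P
          exact h1 P
      _ = 3 * ∑ τ : T, μ.toOuterMeasure {P | ¬ P.CorrectOn (x τ)} := by
          rw [ENNReal.tsum_mul_left, Summable.tsum_finsetSum (fun _ _ => ENNReal.summable)]
          simp only [PMF.toOuterMeasure_apply]
      _ ≤ 3 * ∑ _τ : T, (1 / 3 : ENNReal) := by
          gcongr with τ _
          exact herr τ
      _ = Fintype.card T := by
          rw [Finset.sum_const, Finset.card_univ, nsmul_eq_mul, mul_comm, mul_assoc]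
          rw [ENNReal.div_mul_cancel (by norm_num) (by norm_num), mul_one]
  have h3 := hlow.trans hup
  have h4 : (Fintype.card T + 1 : ℕ) ≤ Fintype.card T := by exact_mod_cast h3
  omega


/-! ### Numerics -/

theorem numeric {n t s : ℕ} (hn : 1000 ≤ n) (ht : t * n ≤ 9 * s)
    (h : 32 ^ n ≤ 16 ^ 5 * (2 * 16 ^ t) ^ 5 * 29 ^ n) :
    (1 / 10 ^ 6 : ℝ) * n ^ 2 ≤ s := by
  have hn' : (1000 : ℝ) ≤ n := by exact_mod_cast hn
  have hn0 : (0 : ℝ) < n := by linarith
  have hreal : (32 : ℝ) ^ n ≤ 16 ^ 5 * (2 * 16 ^ t) ^ 5 * 29 ^ n := by exact_mod_cast h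
  have hlogs := Real.log_le_log (by positivity) hreal
  rw [Real.log_mul (by positivity) (by positivity), Real.log_mul (by positivity) (by positivity),
    Real.log_pow, Real.log_pow, Real.log_pow, Real.log_pow,
    Real.log_mul (by positivity) (by positivity), Real.log_pow] at hlogs
  have hlog16 : Real.log 16 = 4 * Real.log 2 := by
    rw [show (16 : ℝ) = 2 ^ 4 by norm_num, Real.log_pow]
    norm_num
  have hdiff : (3 / 32 : ℝ) ≤ Real.log 32 - Real.log 29 := by
    rw [← Real.log_div (by norm_num) (by norm_num)]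
    have := Real.one_sub_inv_le_log_of_pos (show (0 : ℝ) < 32 / 29 by norm_num)
    norm_num at this ⊢
    linarith
  have hlog2 : Real.log 2 < 0.6931471808 := Real.log_two_lt_d9
  have hlog20 : 0 < Real.log 2 := Real.log_pos (by norm_num)
  have h5 : ((5 : ℕ) : ℝ) = 5 := by norm_num
  rw [h5, hlog16] at hlogs
  have hc : (n : ℝ) * (3 / 32) ≤ n * (Real.log 32 - Real.log 29) :=
    mul_le_mul_of_nonneg_left hdiff hn0.le
  have hd : (n : ℝ) * (Real.log 32 - Real.log 29) = n * Real.log 32 - n * Real.log 29 := by ring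
  have ht0 : (0 : ℝ) ≤ t := Nat.cast_nonneg t
  have h6 : (n : ℝ) * (3 / 32) ≤ 25 * Real.log 2 + 20 * t * Real.log 2 := by linarith
  have h7 : (t : ℝ) * Real.log 2 ≤ t * 0.6931471808 := mul_le_mul_of_nonneg_left hlog2.le ht0
  have h8 : (n : ℝ) / 200 ≤ t := by linarith
  have ht' : (t : ℝ) * n ≤ 9 * s := by exact_mod_cast ht
  nlinarith

/-! ### The result -/

/-- The quadratic lower bound for randomized formulas solving Orthogonal Vectors. -/
theorem result : ∃ c : ℝ, 0 < c ∧ ∀ (n d s : ℕ), 2 ≤ n → 3 * Nat.clog 2 n + 2 ≤ d →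
    ∀ μ : PMF (Formula n d), (∀ F ∈ μ.support, F.size ≤ s) →
      (∀ x : Input n d, IsValid x →
        (2 / 3 : ENNReal) ≤ μ.toOuterMeasure {F | F.CorrectOn x}) →
      c * n ^ 2 ≤ s := by
  classical
  refine ⟨1 / 10 ^ 6, by norm_num, ?_⟩
  intro n d s hn hd μ hμ hx
  obtain ⟨code, hcode⟩ := exists_code (n := n) (m := Nat.clog 2 n)
    (Nat.le_pow_clog (by norm_num) n)
  have hcorrect : ∀ i b j, (HasOrthogonalPair (hard d code i b j) ↔ b j = true) :=
    fun i b j => hard_hasOrthogonalPair hd code hcode i b j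
  obtain ⟨F, hF, herr⟩ := exists_good_formula μ
    (fun τ : Fin n × (Fin n → Bool) × Fin n => hard d code τ.1 τ.2.1 τ.2.2)
    (fun τ => hx _ (hard_valid hd code hcode _ _ _))
  have hcard : Fintype.card (Fin n × (Fin n → Bool) × Fin n) = n * (2 ^ n * n) := by
    simp [Fintype.card_prod]
  rw [hcard] at herr
  have hFs : F.size ≤ s := hμ F hF
  rcases Nat.lt_or_ge n 1000 with hlt | hge
  · have hs : (1 : ℝ) ≤ s := by exact_mod_cast F.size_pos.trans hFs
    have hn2 : (n : ℝ) ≤ 1000 := by exact_mod_cast hlt.le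
    have hn0 : (0 : ℝ) ≤ n := Nat.cast_nonneg n
    nlinarith
  · obtain ⟨t, ht1, ht2⟩ := deterministic_bound F code (by omega) hcorrect herr
    have := numeric hge ht1 ht2
    exact this.trans (by exact_mod_cast hFs)

end Pool.Agent.Results.MP_0f984e_lc.RandomizedFormulas
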